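import Pool.Agent.Lib.MP_5c318e_ag.C.Pol
import Pool.Agent.Lib.MP_5c318e_ag.S.ADefs
import Pool.Agent.Lib.MP_5c318e_ag.U.HypDefs

/-! Exhaustion functions of charts, and the collar of a prime divisor. -/

set_option autoImplicit false

namespace Pool.Agent.Lib.MP_5c318e_ag

open Metric

noncomputable section

/-- `u` has moderate size with respect to `ψ` -/
def Md {S : Type} (ψ u : S → ℝ) : Prop :=
  ∃ K : ℝ, 0 ≤ K ∧ ∀ p, u p ≤ Real.exp (K * ψ p + K)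

theorem exists_deg {ι : Type} [Fintype ι] (g : MvPolynomial ι ℂ) : ∃ A : ℕ, ∀ a,
    ‖MvPolynomial.eval a g‖ ^ 2 * (2 * Hyp.nsq a) ≤ (2 * Hyp.nsq a) ^ A := by
  obtain ⟨N, h⟩ := (pl_mv g).two
  refine ⟨N * 2 + 1, fun a => ?_⟩
  have h0 : 0 ≤ ∑ i, ‖a i‖ ^ 2 := Finset.sum_nonneg fun _ _ => by positivity
  have h1 : 2 ≤ 2 * Hyp.nsq a := by unfold Hyp.nsq; linarith
  have h2 : ‖a‖ ≤ 2 * Hyp.nsq a := (pi_norm_le_iff_of_nonneg (by linarith)).2 fun i => by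
    have := Finset.single_le_sum (f := fun i => ‖a i‖ ^ 2) (fun _ _ => by positivity)
      (Finset.mem_univ i)
    unfold Hyp.nsq
    nlinarith [sq_nonneg (‖a i‖ - 1)]
  rw [pow_succ (2 * Hyp.nsq a), pow_mul]
  exact mul_le_mul_of_nonneg_right (pow_le_pow_left₀ (norm_nonneg _) (h _ h1 a a h2 h2).1 2)
    (by linarith)

section cov

variable {ι : Type} [Fintype ι] {S : Type} [TopologicalSpace S] [MeasurableSpace S] {D : RD ι S}

/-- the coefficient of the Fubini-Study form -/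
def RD.Cov.A (C : D.Cov) : ℕ := (exists_deg C.Δ).choose

/-- the exhaustion function of a finite covering -/
def RD.Cov.ψ (C : D.Cov) (p : S) : ℝ :=
  C.A * Real.log (2 * Hyp.nsq (D.π p)) - Real.log (‖MvPolynomial.eval (D.π p) C.Δ‖ ^ 2)

end cov

variable {ι F : Type} [Fintype ι] [DecidableEq ι] [Field F] [Algebra ℂ F]

/-- chosen generators of the ring of a chart -/
def Cht.gens (c : Cht ι F) : Finset c.O := (Algebra.FiniteType.out (R := ℂ) (A := c.O)).choose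

/-- the exhaustion function of an arbitrary chart -/
def Cht.siz (c : Cht ι F) (p : Pt c.O) : ℝ := Real.log (∑ a ∈ c.gens, ‖p a‖ ^ 2 + 1)

/-- the point with coordinate `ζ` at `i0` and `w` elsewhere -/
def ins (i0 : ι) (ζ : ℂ) (w : {i // i ≠ i0} → ℂ) : ι → ℂ :=
  fun i => if h : i = i0 then ζ else w ⟨i, h⟩

/-- The collar of the divisor `z i0 = 0` in the chart `C`: a finite chart `S` of the residue field
`k` and the points `Φ ζ q` of `C` with coordinates `(ζ, π q)`. -/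
structure Collar (C : Cht ι F) (P : ValuationSubring F) (i0 : ι) (k : Type) [Field k]
    [Algebra ℂ k] where
  at' : C.At P i0
  S : Cht {i // i ≠ i0} k
  fin : Fini (Algebra.ofId ℂ S.O) S.z
  cov : S.D.Cov
  cov_f : cov.f = fin.f
  cov_Δ : cov.Δ = fin.Δ
  cov_w : ∀ p, cov.w p = p fin.w
  rs : P →+* k
  rs_surj : Function.Surjective rs
  rs_ker : ∀ a : P, rs a = 0 ↔ P.valuation a < 1
  res : C.O →ₐ[ℂ] S.O
  res_eq : ∀ a : C.O, (res a : k) = rs ⟨a, at'.le a a.2⟩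
  res_z : ∀ i : {i // i ≠ i0}, res (C.z i) = S.z i
  K : ℝ
  σ : Pt S.O → ({i // i ≠ i0} → ℂ) → Pt S.O
  tame : Hyp.Tame S.D cov.f.natDegree cov.A K cov.ψ σ
  osc : ∀ p, ∀ w ∈ Hyp.bal S.D K cov.ψ p, |cov.ψ (σ p w) - cov.ψ p| ≤ 1
  Φ : ℂ → Pt S.O → Pt C.O
  zero : ∀ q, Φ 0 q = q.res res
  cont : ∀ p, ContinuousOn (fun u : ℂ × ({i // i ≠ i0} → ℂ) => Φ u.1 (σ p u.2))
    (ball 0 (Real.exp (-(K * cov.ψ p + K))) ×ˢ Hyp.bal S.D K cov.ψ p)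
  coord : ∀ p, ∀ u ∈ ball (0 : ℂ) (Real.exp (-(K * cov.ψ p + K))) ×ˢ Hyp.bal S.D K cov.ψ p,
    C.D.π (Φ u.1 (σ p u.2)) = ins i0 u.1 u.2
  siz : ∃ L : ℝ, 0 ≤ L ∧ ∀ p, ∀ u ∈ ball (0 : ℂ) (Real.exp (-(K * cov.ψ p + K))) ×ˢ
    Hyp.bal S.D K cov.ψ p, C.siz (Φ u.1 (σ p u.2)) ≤ L * cov.ψ p + L

namespace Collar

variable {C : Cht ι F} {P : ValuationSubring F} {i0 : ι} {k : Type} [Field k] [Algebra ℂ k]
  (Γ : Collar C P i0 k)

/-- the exhaustion function of the divisor -/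
abbrev ψ : Pt Γ.S.O → ℝ := Γ.cov.ψ

/-- the radius at `p` -/
abbrev ρ (p : Pt Γ.S.O) : ℝ := Real.exp (-(Γ.K * Γ.cov.ψ p + Γ.K))

/-- the full piece at `p` -/
abbrev dom (p : Pt Γ.S.O) : Set (ℂ × ({i // i ≠ i0} → ℂ)) :=
  ball 0 (Γ.ρ p) ×ˢ Hyp.bal Γ.S.D Γ.K Γ.cov.ψ p

/-- the punctured piece at `p` -/
abbrev dom0 (p : Pt Γ.S.O) : Set (ℂ × ({i // i ≠ i0} → ℂ)) :=
  (ball 0 (Γ.ρ p) \ {0}) ×ˢ Hyp.bal Γ.S.D Γ.K Γ.cov.ψ p

/-- the collar map on the piece at `p` -/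
abbrev H (p : Pt Γ.S.O) (u : ℂ × ({i // i ≠ i0} → ℂ)) : Pt C.O := Γ.Φ u.1 (Γ.σ p u.2)

end Collar

end

end Pool.Agent.Lib.MP_5c318e_ag
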