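import Pool.Agent.Lib.MP_5c318e_ag.C.CDefs
import Pool.Agent.Lib.MP_5c318e_ag.S.RCov
import Pool.Agent.Lib.MP_5c318e_ag.U.HypB

/-! The exhaustion function of a finite covering. -/

set_option autoImplicit false

namespace Pool.Agent.Lib.MP_5c318e_ag

open Set Filter Topology Metric
open scoped ContDiff
open Pool.Agent.Lib.MP_9ff3e7_ag

namespace Md

variable {S : Type} {ψ u v : S → ℝ}

theorem mono (h : Md ψ v) (huv : ∀ p, u p ≤ v p) : Md ψ u :=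
  let ⟨K, h0, h1⟩ := h; ⟨K, h0, fun p => (huv p).trans (h1 p)⟩

theorem const (h0 : ∀ p, 0 ≤ ψ p) (c : ℝ) : Md ψ fun _ => c :=
  ⟨|c|, abs_nonneg c, fun p => by
    have := Real.add_one_le_exp (|c| * ψ p + |c|)
    have := mul_nonneg (abs_nonneg c) (h0 p)
    linarith [le_abs_self c]⟩

theorem exp : Md ψ fun p => Real.exp (ψ p) :=
  ⟨1, zero_le_one, fun p => Real.exp_le_exp.2 (by linarith)⟩

theorem mul (hu : Md ψ u) (hv : Md ψ v) (v0 : ∀ p, 0 ≤ v p) : Md ψ fun p => u p * v p := by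
  obtain ⟨K, a, b⟩ := hu
  obtain ⟨L, c, d⟩ := hv
  refine ⟨K + L, add_nonneg a c, fun p => ?_⟩
  refine (mul_le_mul (b p) (d p) (v0 p) (Real.exp_pos _).le).trans_eq ?_
  rw [← Real.exp_add]; ring_nf

theorem add (h0 : ∀ p, 0 ≤ ψ p) (hu : Md ψ u) (hv : Md ψ v) : Md ψ fun p => u p + v p := by
  obtain ⟨K, a, b⟩ := hu
  obtain ⟨L, c, d⟩ := hv
  refine ⟨K + L + 1, by positivity, fun p => ?_⟩
  have h := h0 p
  have e1 : u p ≤ Real.exp ((K + L) * ψ p + (K + L)) :=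
    (b p).trans (Real.exp_le_exp.2 (by nlinarith))
  have e2 : v p ≤ Real.exp ((K + L) * ψ p + (K + L)) :=
    (d p).trans (Real.exp_le_exp.2 (by nlinarith))
  have e3 : Real.exp ((K + L + 1) * ψ p + (K + L + 1)) =
      Real.exp ((K + L) * ψ p + (K + L)) * Real.exp (ψ p + 1) := by
    rw [← Real.exp_add]; ring_nf
  have e4 := Real.add_one_le_exp (ψ p + 1)
  rw [e3]
  nlinarith [Real.exp_pos ((K + L) * ψ p + (K + L))]

theorem pow (h0 : ∀ p, 0 ≤ ψ p) (hu : Md ψ u) (u0 : ∀ p, 0 ≤ u p) (n : ℕ) :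
    Md ψ fun p => u p ^ n := by
  induction n with
  | zero => simpa using const h0 1
  | succ n ih => simpa only [pow_succ] using ih.mul hu u0

theorem sum (h0 : ∀ p, 0 ≤ ψ p) {α : Type*} (s : Finset α) {f : α → S → ℝ}
    (h : ∀ a ∈ s, Md ψ (f a)) : Md ψ fun p => ∑ a ∈ s, f a p := by
  classical
  induction s using Finset.induction_on with
  | empty => simpa using const h0 0
  | insert a s ha ih =>
    simpa only [Finset.sum_insert ha] using add h0 (h a (Finset.mem_insert_self _ _))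
      (ih fun b hb => h b (Finset.mem_insert_of_mem hb))

/-- a polynomially bounded function of a moderate map -/
theorem pl (h0 : ∀ p, 0 ≤ ψ p) {E : Type} [NormedAddCommGroup E] {g : E → ℂ} (hg : PL g)
    {e : S → E} (he : Md ψ fun p => ‖e p‖) : Md ψ fun p => ‖g (e p)‖ := by
  obtain ⟨A, N, -, h⟩ := hg
  refine ((const h0 A).mul ((add h0 (const h0 1) he).pow h0 (fun p => by positivity) N)
    fun p => by positivity).mono fun p => ?_
  exact (h (1 + ‖e p‖) (by simp) _ (e p) (by simp) (by simp)).1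

/-- moderate functions have logarithms of linear size -/
theorem log_le (hu : Md ψ u) (u0 : ∀ p, 0 < u p) :
    ∃ K : ℝ, 0 ≤ K ∧ ∀ p, Real.log (u p) ≤ K * ψ p + K :=
  let ⟨K, a, b⟩ := hu; ⟨K, a, fun p => (Real.log_le_iff_le_exp (u0 p)).2 (b p)⟩

end Md

variable {ι : Type} [Fintype ι]

theorem norm_le_two_nsq (a : ι → ℂ) : 1 + ‖a‖ ≤ 2 * Hyp.nsq a := by
  have h := Hyp.norm_le_nsq a
  have h1 := Hyp.one_le_nsq a
  have h2 : ‖a‖ ^ 2 ≤ ‖((1 : ℂ), a)‖ ^ 2 :=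
    pow_le_pow_left₀ (norm_nonneg _) (norm_snd_le ((1 : ℂ), a)) 2
  nlinarith [sq_nonneg (‖a‖ - 1)]

theorem nsq_near {a b : ι → ℂ} {ε : ℝ} (h : ‖b - a‖ ≤ ε) (h1 : ε ≤ 1) :
    Hyp.nsq b ≤ Hyp.nsq a * (1 + (2 * Fintype.card ι + 1) * ε) := by
  have h0 : 0 ≤ ε := (norm_nonneg _).trans h
  have k : ∀ i, ‖b i‖ ^ 2 ≤ ‖a i‖ ^ 2 * (1 + ε) + 2 * ε := fun i => by
    have e1 : ‖b i - a i‖ ≤ ε := (norm_le_pi_norm (b - a) i).trans h
    have e2 : ‖b i‖ ≤ ‖a i‖ + ε := by linarith [norm_sub_norm_le (b i) (a i)]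
    have e3 := pow_le_pow_left₀ (norm_nonneg _) e2 2
    nlinarith [mul_nonneg h0 (sq_nonneg (‖a i‖ - 1))]
  have k2 := Finset.sum_le_sum fun i (_ : i ∈ Finset.univ) => k i
  rw [Finset.sum_add_distrib, ← Finset.sum_mul, Finset.sum_const, Finset.card_univ,
    nsmul_eq_mul] at k2
  have k3 : 0 ≤ ∑ i, ‖a i‖ ^ 2 := Finset.sum_nonneg fun _ _ => by positivity
  have k4 : (0 : ℝ) ≤ Fintype.card ι := Nat.cast_nonneg _
  unfold Hyp.nsq
  nlinarith [mul_nonneg k3 (mul_nonneg k4 h0)]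

theorem log_near {x y η : ℝ} (hx : 0 < x) (hy : 0 < y) (h : y ≤ x * (1 + η)) :
    Real.log y ≤ Real.log x + η := by
  have h1 : 0 < 1 + η := (pos_iff_pos_of_mul_pos (hy.trans_le h)).1 hx
  have := Real.log_le_log hy h
  rw [Real.log_mul hx.ne' h1.ne'] at this
  linarith [Real.log_le_sub_one_of_pos h1]

variable {S : Type} [TopologicalSpace S] [MeasurableSpace S] {D : RD ι S}

theorem Hyp.bal_mono {K K' : ℝ} {ψ : S → ℝ} (h : K ≤ K') {p : S} (h0 : 0 ≤ ψ p) :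
    Hyp.bal D K' ψ p ⊆ Hyp.bal D K ψ p :=
  ball_subset_ball (Real.exp_le_exp.2 (by nlinarith))

namespace RD.Cov

variable (C : D.Cov)

theorem exp_ψ (p : S) : Real.exp (C.ψ p) =
    (2 * Hyp.nsq (D.π p)) ^ C.A / ‖MvPolynomial.eval (D.π p) C.Δ‖ ^ 2 := by
  have h := norm_pos_iff.2 (C.Δ_ne p)
  have h1 := Hyp.nsq_pos (D.π p)
  rw [ψ, Real.exp_sub, ← Real.log_pow, Real.exp_log (by positivity), Real.exp_log (by positivity)]

theorem nsq_le (p : S) : 2 * Hyp.nsq (D.π p) ≤ Real.exp (C.ψ p) := by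
  have h := norm_pos_iff.2 (C.Δ_ne p)
  rw [exp_ψ, le_div_iff₀ (by positivity), mul_comm]
  exact (exists_deg C.Δ).choose_spec _

theorem two_le_exp (p : S) : 2 ≤ Real.exp (C.ψ p) := by
  linarith [C.nsq_le p, Hyp.one_le_nsq (D.π p)]

theorem ψ_nonneg (p : S) : 0 ≤ C.ψ p :=
  Real.one_le_exp_iff.1 (by linarith [C.two_le_exp p])

theorem inv_Δ_le (p : S) : ‖MvPolynomial.eval (D.π p) C.Δ‖⁻¹ ^ 2 ≤ Real.exp (C.ψ p) := by
  have h := norm_pos_iff.2 (C.Δ_ne p)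
  rw [exp_ψ, inv_pow, ← one_div]
  exact div_le_div_of_nonneg_right (one_le_pow₀ (by linarith [Hyp.one_le_nsq (D.π p)]))
    (by positivity)

theorem inv_Δ_le' (p : S) : ‖MvPolynomial.eval (D.π p) C.Δ‖⁻¹ ≤ Real.exp (C.ψ p) := by
  have := C.inv_Δ_le p
  have := C.two_le_exp p
  nlinarith [sq_nonneg (‖MvPolynomial.eval (D.π p) C.Δ‖⁻¹ - 1)]

theorem norm_le (p : S) : 1 + ‖D.π p‖ ≤ Real.exp (C.ψ p) :=
  (norm_le_two_nsq _).trans (C.nsq_le p)

theorem ψ_sec (p : S) : (fun z => C.ψ (D.sec p z)) =ᶠ[𝓝 (D.π p)] fun z =>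
    C.A * (Real.log (Hyp.nsq z) + Real.log 2) - Real.log (‖MvPolynomial.eval z C.Δ‖ ^ 2) := by
  filter_upwards [D.π_sec_ev p] with z hz
  rw [ψ, hz, Real.log_mul two_ne_zero (Hyp.nsq_pos z).ne', add_comm]

theorem sm_log_nsq {n : WithTop ℕ∞} (z : ι → ℂ) :
    ContDiffAt ℝ n (fun y => Real.log (Hyp.nsq y)) z :=
  Hyp.contDiff_nsq.contDiffAt.log (Hyp.nsq_pos z).ne'

theorem sm_log_Δ {n : WithTop ℕ∞} (p : S) :
    ContDiffAt ℝ n (fun y => Real.log (‖MvPolynomial.eval y C.Δ‖ ^ 2)) (D.π p) :=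
  (F.contDiffAt_normSq (mv_analytic _ _)).log (pow_ne_zero _ (norm_ne_zero_iff.2 (C.Δ_ne p)))

theorem sm_ψ : D.Sm C.ψ := fun p =>
  ((contDiffAt_const.mul ((sm_log_nsq _).add contDiffAt_const)).sub
    (C.sm_log_Δ p)).congr_of_eventuallyEq (C.ψ_sec p)

theorem levi_ψ (p : S) (ξ : ι → ℂ) :
    D.levi C.ψ p ξ = C.A * F.levi (fun y => Real.log (Hyp.nsq y)) (D.π p) ξ := by
  rw [RD.levi, F.levi_congr (C.ψ_sec p), F.levi_sub
    (contDiffAt_const.mul ((sm_log_nsq _).add contDiffAt_const)) (C.sm_log_Δ p),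
    Hyp.levi_log_normSq (mv_analytic _ _) (C.Δ_ne p), sub_zero,
    F.levi_const_mul _ ((sm_log_nsq _).add contDiffAt_const), F.levi_add_const (sm_log_nsq _)]

theorem psh : D.Psh C.ψ := ⟨C.sm_ψ, fun p ξ => by
  rw [levi_ψ]
  refine mul_nonneg (Nat.cast_nonneg _) ?_
  rcases eq_or_ne ξ 0 with rfl | h
  · have := F.levi_vec_smul (fun y => Real.log (Hyp.nsq y)) (D.π p) 0 0
    simp only [smul_zero, norm_zero, ne_eq, OfNat.ofNat_ne_zero, not_false_eq_true, zero_pow,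
      zero_mul] at this
    exact this.ge
  · exact (Hyp.levi_nsq_pos _ h).le⟩

theorem md_π : Md C.ψ fun p => ‖D.π p‖ := Md.exp.mono fun p => by linarith [C.norm_le p]

theorem md_w : Md C.ψ fun p => ‖C.w p‖ := by
  obtain ⟨A, N, h⟩ := C.w_bound
  exact ((Md.const C.ψ_nonneg A).mul ((Md.exp.mono C.norm_le).pow C.ψ_nonneg
    (fun p => by positivity) N) fun p => by positivity).mono h

theorem md_ev2 (q : Polynomial (MvPolynomial ι ℂ)) (j : ℕ) :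
    Md C.ψ fun p => ‖ev2 q (D.π p) (C.w p) / MvPolynomial.eval (D.π p) C.Δ ^ j‖ := by
  have h1 : Md C.ψ fun p => ‖(D.π p, C.w p)‖ :=
    (Md.add C.ψ_nonneg C.md_π C.md_w).mono fun p =>
      max_le (le_add_of_nonneg_right (norm_nonneg _)) (le_add_of_nonneg_left (norm_nonneg _))
  refine ((Md.pl C.ψ_nonneg (pl_ev2 q) h1).mul ((Md.exp.mono C.inv_Δ_le').pow C.ψ_nonneg
    (fun p => by positivity) j) fun p => by positivity).mono fun p => ?_
  rw [norm_div, norm_pow, div_eq_mul_inv, inv_pow]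

/-- `ψ` is almost constant on small balls -/
theorem osc : ∃ K : ℝ, 0 ≤ K ∧ ∀ p q, D.π q ∈ Hyp.bal D K C.ψ p → |C.ψ q - C.ψ p| ≤ 1 := by
  obtain ⟨N, h⟩ := (pl_mv C.Δ).two
  let m : ℝ := C.A * (2 * Fintype.card ι + 1)
  have hm : 0 ≤ m := by positivity
  obtain ⟨K, hK, hb⟩ := ((Md.const C.ψ_nonneg (2 * m + 8)).mul
    ((Md.exp.pow C.ψ_nonneg (fun p => (Real.exp_pos _).le) (N + 1))) fun p => by positivity)
  refine ⟨K, hK, fun p q hq => ?_⟩
  have hE := C.two_le_exp p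
  set E := Real.exp (C.ψ p) with hEd
  have hr : ‖D.π q - D.π p‖ * ((2 * m + 8) * E ^ (N + 1)) ≤ 1 := by
    have := (mem_ball_iff_norm.1 hq).le
    rw [Real.exp_neg] at this
    exact (mul_le_mul this (hb p) (by positivity) (by positivity)).trans_eq
      (inv_mul_cancel₀ (Real.exp_pos _).ne')
  set r := ‖D.π q - D.π p‖ with hrd
  have r0 : 0 ≤ r := norm_nonneg _
  have hP : 1 ≤ E ^ (N + 1) := one_le_pow₀ (by linarith)
  have h1 : r * (2 * m + 8) ≤ 1 := by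
    nlinarith [mul_nonneg (mul_nonneg r0 (show 0 ≤ 2 * m + 8 by positivity)) (sub_nonneg.2 hP)]
  have h2 : r * E ^ (N + 1) * 8 ≤ 1 := by
    nlinarith [mul_nonneg (mul_nonneg r0 hm) (zero_le_one.trans hP)]
  have r1 : r ≤ 1 := by nlinarith [mul_nonneg r0 hm]
  have a1 := log_near (Hyp.nsq_pos _) (Hyp.nsq_pos _) (nsq_near hrd.ge r1)
  have a2 := log_near (Hyp.nsq_pos _) (Hyp.nsq_pos _)
    (nsq_near ((norm_sub_rev _ _).trans_le hrd.ge) r1)
  have d0 := norm_pos_iff.2 (C.Δ_ne p)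
  have d1 := norm_pos_iff.2 (C.Δ_ne q)
  have n1 := C.norm_le p
  have b := (h E hE (D.π q) (D.π p) (by linarith [norm_sub_norm_le (D.π q) (D.π p)])
    (by linarith [norm_nonneg (D.π p)])).2
  have b1 : 1 ≤ E * ‖MvPolynomial.eval (D.π p) C.Δ‖ := by
    have := mul_le_mul_of_nonneg_right (C.inv_Δ_le' p) d0.le
    rwa [inv_mul_cancel₀ d0.ne'] at this
  have b2 : E ^ N * r * 8 ≤ ‖MvPolynomial.eval (D.π p) C.Δ‖ := by
    rw [pow_succ] at h2
    refine le_of_mul_le_mul_left ?_ (show 0 < E by linarith)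
    nlinarith
  have c1 := norm_sub_norm_le (MvPolynomial.eval (D.π q) C.Δ) (MvPolynomial.eval (D.π p) C.Δ)
  have c2 := norm_sub_norm_le (MvPolynomial.eval (D.π p) C.Δ) (MvPolynomial.eval (D.π q) C.Δ)
  rw [norm_sub_rev] at c2
  have e1 := log_near (η := 1 / 4) d0 d1 (by linarith)
  have e2 := log_near (η := 1 / 4) d1 d0 (by linarith)
  have hA : (0 : ℝ) ≤ C.A := Nat.cast_nonneg _
  have f1 := mul_le_mul_of_nonneg_left a1 hA
  have f2 := mul_le_mul_of_nonneg_left a2 hA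
  have f3 : C.A * ((2 * Fintype.card ι + 1) * r) = m * r := by simp only [m]; ring
  simp only [ψ, Real.log_mul two_ne_zero (Hyp.nsq_pos _).ne', Real.log_pow, Nat.cast_ofNat]
  rw [abs_le]
  constructor <;> nlinarith

variable [T2Space S]

theorem cpt_ψ (t : ℝ) : IsCompact {p | C.ψ p ≤ t} :=
  (C.compact (Real.exp t)).of_isClosed_subset (isClosed_le C.sm_ψ.cont continuous_const)
    fun p hp => by
      have h := Real.exp_le_exp.2 hp
      exact ⟨by linarith [C.norm_le p], inv_le_of_inv_le₀ (norm_pos_iff.2 (C.Δ_ne p))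
        ((C.inv_Δ_le' p).trans h)⟩

theorem exh : D.Exh C.ψ := ⟨C.psh, C.cpt_ψ⟩

theorem tame : ∃ K0 : ℝ, ∀ K, K0 ≤ K → ∃ σ : S → (ι → ℂ) → S,
    Hyp.Tame D C.f.natDegree C.A K C.ψ σ ∧
      ∀ p, ∀ w ∈ Hyp.bal D K C.ψ p, |C.ψ (σ p w) - C.ψ p| ≤ 1 := by
  obtain ⟨c, N, hc, h⟩ := C.lift_ball
  choose σ h0 h1 h2 using h
  obtain ⟨K1, k1, ho⟩ := C.osc
  obtain ⟨K2, k2, hb⟩ := (((Md.const C.ψ_nonneg c⁻¹).mul (Md.exp.mono C.inv_Δ_le')
    fun p => by positivity).mul ((Md.exp.mono C.norm_le).pow C.ψ_nonneg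
      (fun p => by positivity) N) fun p => by positivity)
  refine ⟨K1 + K2 + 1, fun K hK => ?_⟩
  have hs : ∀ p, Hyp.bal D K C.ψ p ⊆
      ball (D.π p) (c * ‖MvPolynomial.eval (D.π p) C.Δ‖ / (1 + ‖D.π p‖) ^ N) := fun p =>
    (Hyp.bal_mono (K := K2) (by linarith) (C.ψ_nonneg p)).trans (ball_subset_ball (by
      have d0 := norm_pos_iff.2 (C.Δ_ne p)
      rw [Real.exp_neg]
      refine inv_le_of_inv_le₀ (by positivity) (le_of_eq_of_le ?_ (hb p))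
      field_simp))
  refine ⟨σ, ⟨C.card_le, Nat.cast_nonneg _, by linarith, C.sm_ψ, C.cpt_ψ,
    fun p ξ => (C.levi_ψ p ξ).le, fun p => ?_, fun p => (h1 p).mono (hs p), h0,
    fun p z hz => (h2 p z (hs p hz)).1⟩, fun p w hw => ho p _ ?_⟩
  · have h3 := C.ψ_nonneg p
    have h4 : Real.log (Hyp.nsq (D.π p)) ≤ C.ψ p := (Real.log_le_iff_le_exp (Hyp.nsq_pos _)).2
      (by linarith [C.nsq_le p, Hyp.nsq_pos (D.π p)])
    nlinarith
  · rw [(h2 p w (hs p hw)).1]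
    exact Hyp.bal_mono (by linarith) (C.ψ_nonneg p) hw

end RD.Cov

end Pool.Agent.Lib.MP_5c318e_ag
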