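import Pool.Agent.Lib.MP_5c318e_ag.S.PDefs

/-! Size and Lipschitz bounds for polynomials, analytic simple roots. -/

set_option autoImplicit false

namespace Pool.Agent.Lib.MP_5c318e_ag

open Polynomial Filter Topology
open scoped ContDiff

/-- polynomial size and polynomial Lipschitz constant -/
def PL {E : Type} [NormedAddCommGroup E] (g : E → ℂ) : Prop :=
  ∃ (A : ℝ) (N : ℕ), 0 ≤ A ∧ ∀ R : ℝ, 1 ≤ R → ∀ u v, ‖u‖ ≤ R → ‖v‖ ≤ R →
    ‖g u‖ ≤ A * R ^ N ∧ ‖g u - g v‖ ≤ A * R ^ N * ‖u - v‖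

namespace PL

variable {E G : Type} [NormedAddCommGroup E] [NormedAddCommGroup G] {f g : E → ℂ}

theorem const (c : ℂ) : PL fun _ : E => c :=
  ⟨‖c‖, 0, norm_nonneg _, fun _ _ _ _ _ _ => ⟨by simp, by simp; positivity⟩⟩

theorem lin (h : ∀ u, ‖g u‖ ≤ ‖u‖) (h' : ∀ u v, ‖g u - g v‖ ≤ ‖u - v‖) : PL g :=
  ⟨1, 1, zero_le_one, fun R hR u v hu _ => ⟨by simpa using (h u).trans hu, (h' u v).trans
    (le_mul_of_one_le_left (norm_nonneg _) (by simpa using hR))⟩⟩

theorem add (hf : PL f) (hg : PL g) : PL fun u => f u + g u := by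
  obtain ⟨A, N, hA, h⟩ := hf
  obtain ⟨B, M, hB, h'⟩ := hg
  refine ⟨A + B, N + M, add_nonneg hA hB, fun R hR u v hu hv => ?_⟩
  obtain ⟨a, b⟩ := h R hR u v hu hv
  obtain ⟨c, d⟩ := h' R hR u v hu hv
  have e1 : A * R ^ N ≤ A * R ^ (N + M) :=
    mul_le_mul_of_nonneg_left (pow_le_pow_right₀ hR (Nat.le_add_right _ _)) hA
  have e2 : B * R ^ M ≤ B * R ^ (N + M) :=
    mul_le_mul_of_nonneg_left (pow_le_pow_right₀ hR (Nat.le_add_left _ _)) hB
  refine ⟨(norm_add_le _ _).trans (by linarith), ?_⟩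
  rw [add_sub_add_comm]
  refine (norm_add_le _ _).trans ?_
  nlinarith [norm_nonneg (u - v)]

theorem mul (hf : PL f) (hg : PL g) : PL fun u => f u * g u := by
  obtain ⟨A, N, hA, h⟩ := hf
  obtain ⟨B, M, hB, h'⟩ := hg
  refine ⟨2 * (A * B), N + M, by positivity, fun R hR u v hu hv => ?_⟩
  obtain ⟨a, b⟩ := h R hR u v hu hv
  obtain ⟨-, d⟩ := h' R hR u v hu hv
  obtain ⟨c', -⟩ := h' R hR v u hv hu
  obtain ⟨c, -⟩ := h' R hR u v hu hv
  have hR0 : 0 ≤ R := zero_le_one.trans hR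
  have e : A * R ^ N * (B * R ^ M) = A * B * R ^ (N + M) := by ring
  have p : 0 ≤ A * B * R ^ (N + M) := by positivity
  constructor
  · rw [norm_mul]
    refine (mul_le_mul a c (norm_nonneg _) (by positivity)).trans ?_
    linarith
  · have : f u * g u - f v * g v = f u * (g u - g v) + (f u - f v) * g v := by ring
    rw [this]
    refine (norm_add_le _ _).trans ?_
    rw [norm_mul, norm_mul]
    have k1 := mul_le_mul a d (norm_nonneg _) (by positivity)
    have k2 := mul_le_mul b c' (norm_nonneg _) (by positivity)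
    calc _ ≤ _ := add_le_add k1 k2
      _ = _ := by ring

theorem pow (hf : PL f) (k : ℕ) : PL fun u => f u ^ k := by
  induction k with
  | zero => simpa using const 1
  | succ k ih => simpa only [pow_succ] using ih.mul hf

theorem comp (hf : PL f) {l : G → E} (h : ∀ u, ‖l u‖ ≤ ‖u‖) (h' : ∀ u v, ‖l u - l v‖ ≤ ‖u - v‖) :
    PL fun u => f (l u) := by
  obtain ⟨A, N, hA, k⟩ := hf
  refine ⟨A, N, hA, fun R hR u v hu hv => ?_⟩
  obtain ⟨a, b⟩ := k R hR (l u) (l v) ((h u).trans hu) ((h v).trans hv)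
  have hR0 : 0 ≤ R := zero_le_one.trans hR
  exact ⟨a, b.trans (mul_le_mul_of_nonneg_left (h' u v) (by positivity))⟩

/-- the same with powers of a number `≥ 2` only -/
theorem two (hf : PL f) : ∃ N : ℕ, ∀ R : ℝ, 2 ≤ R → ∀ u v, ‖u‖ ≤ R → ‖v‖ ≤ R →
    ‖f u‖ ≤ R ^ N ∧ ‖f u - f v‖ ≤ R ^ N * ‖u - v‖ := by
  obtain ⟨A, N, hA, k⟩ := hf
  obtain ⟨M, hM⟩ := pow_unbounded_of_one_lt A (one_lt_two (α := ℝ))
  refine ⟨M + N, fun R hR u v hu hv => ?_⟩
  obtain ⟨a, b⟩ := k R (by linarith) u v hu hv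
  have e : A * R ^ N ≤ R ^ (M + N) := by
    rw [pow_add]
    exact mul_le_mul_of_nonneg_right (hM.le.trans (pow_le_pow_left₀ zero_le_two hR M))
      (by positivity)
  exact ⟨a.trans e, b.trans (mul_le_mul_of_nonneg_right e (norm_nonneg _))⟩

end PL

variable {ι : Type} [Fintype ι]

theorem pl_mv (g : MvPolynomial ι ℂ) : PL fun a : ι → ℂ => MvPolynomial.eval a g := by
  induction g using MvPolynomial.induction_on with
  | C c => simpa using PL.const c
  | add p q hp hq => simpa using hp.add hq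
  | mul_X p i hp =>
    simpa using hp.mul (PL.lin (g := fun a : ι → ℂ => a i) (fun u => norm_le_pi_norm u i)
      fun u v => norm_le_pi_norm (u - v) i)

omit [Fintype ι] in
theorem ev2_add (p q : (MvPolynomial ι ℂ)[X]) (a : ι → ℂ) (s : ℂ) :
    ev2 (p + q) a s = ev2 p a s + ev2 q a s := eval₂_add _ _

omit [Fintype ι] in
theorem ev2_mul (p q : (MvPolynomial ι ℂ)[X]) (a : ι → ℂ) (s : ℂ) :
    ev2 (p * q) a s = ev2 p a s * ev2 q a s := eval₂_mul _ _

omit [Fintype ι] in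
theorem ev2_C (g : MvPolynomial ι ℂ) (a : ι → ℂ) (s : ℂ) :
    ev2 (C g) a s = MvPolynomial.eval a g := eval₂_C _ _

omit [Fintype ι] in
theorem ev2_monomial (k : ℕ) (g : MvPolynomial ι ℂ) (a : ι → ℂ) (s : ℂ) :
    ev2 (monomial k g) a s = MvPolynomial.eval a g * s ^ k := eval₂_monomial _ _

omit [Fintype ι] in
theorem ev2_eq (q : (MvPolynomial ι ℂ)[X]) (a : ι → ℂ) (s : ℂ) :
    ev2 q a s = (q.map (MvPolynomial.eval a)).eval s := by
  simp [ev2, eval_map]

theorem pl_ev2 (q : (MvPolynomial ι ℂ)[X]) : PL fun u : (ι → ℂ) × ℂ => ev2 q u.1 u.2 := by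
  induction q using Polynomial.induction_on' with
  | add p q hp hq => simpa only [ev2_add] using hp.add hq
  | monomial k g =>
    simp only [ev2_monomial]
    exact ((pl_mv g).comp (l := Prod.fst) norm_fst_le fun u v => norm_fst_le (u - v)).mul
      ((PL.lin (g := Prod.snd) norm_snd_le fun u v => norm_snd_le (u - v)).pow k)

theorem mv_analytic (g : MvPolynomial ι ℂ) (w : ι → ℂ) :
    AnalyticAt ℂ (fun w : ι → ℂ => MvPolynomial.eval w g) w := by
  induction g using MvPolynomial.induction_on with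
  | C c => simpa using analyticAt_const
  | add p q hp hq => simpa using hp.fun_add hq
  | mul_X p i hp =>
    have : AnalyticAt ℂ (fun w : ι → ℂ => w i) w :=
      (ContinuousLinearMap.proj (R := ℂ) (φ := fun _ : ι => ℂ) i).analyticAt w
    simpa using hp.fun_mul this

theorem mv_cont (g : MvPolynomial ι ℂ) : Continuous fun w : ι → ℂ => MvPolynomial.eval w g :=
  continuous_iff_continuousAt.2 fun w => (mv_analytic g w).continuousAt

theorem ev2_analytic (q : (MvPolynomial ι ℂ)[X]) (u : (ι → ℂ) × ℂ) :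
    AnalyticAt ℂ (fun u : (ι → ℂ) × ℂ => ev2 q u.1 u.2) u := by
  induction q using Polynomial.induction_on' with
  | add p q hp hq => simpa only [ev2_add] using hp.fun_add hq
  | monomial k g =>
    simp only [ev2_monomial]
    exact ((mv_analytic g u.1).comp analyticAt_fst).mul (analyticAt_snd.pow k)

omit [Fintype ι] in
theorem ev2_deriv (q : (MvPolynomial ι ℂ)[X]) (a : ι → ℂ) (s : ℂ) :
    HasDerivAt (fun s => ev2 q a s) (ev2 (derivative q) a s) s := by
  simp only [ev2_eq]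
  rw [← derivative_map]
  exact Polynomial.hasDerivAt _ s

/-- the analytic implicit function of a simple root -/
theorem exists_root (q : (MvPolynomial ι ℂ)[X]) {a : ι → ℂ} {s : ℂ} (h0 : ev2 q a s = 0)
    (h1 : ev2 (derivative q) a s ≠ 0) :
    ∃ θ : (ι → ℂ) → ℂ, AnalyticAt ℂ θ a ∧ θ a = s ∧ (∀ᶠ w in 𝓝 a, ev2 q w (θ w) = 0) ∧
      ∀ᶠ v in 𝓝 (a, s), ev2 q v.1 v.2 = 0 → θ v.1 = v.2 := by
  set g := fun u : (ι → ℂ) × ℂ => ev2 q u.1 u.2 with hg
  have cdf : ContDiffAt ℂ ω g (a, s) := (ev2_analytic q _).contDiffAt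
  have hd : HasFDerivAt g (fderiv ℂ g (a, s)) (a, s) :=
    (ev2_analytic q _).differentiableAt.hasFDerivAt
  have h2 : HasFDerivAt (fun s : ℂ => ev2 q a s) (fderiv ℂ g (a, s) ∘L .inr ℂ (ι → ℂ) ℂ) s :=
    HasFDerivAt.comp (f := fun s : ℂ => (a, s)) s hd (hasFDerivAt_prodMk_right a s)
  have h4 := h2.unique (ev2_deriv q a s).hasFDerivAt
  have hinv : (fderiv ℂ g (a, s) ∘L .inr ℂ (ι → ℂ) ℂ).IsInvertible := by
    rw [h4]
    refine ⟨ContinuousLinearEquiv.unitsEquivAut ℂ (Units.mk0 _ h1), ?_⟩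
    ext
    simp
  refine ⟨cdf.implicitFunction (by simp) hinv, ?_, cdf.implicitFunction_apply_self _ hinv, ?_, ?_⟩
  · exact (cdf.contDiffAt_implicitFunction _ hinv).analyticAt
  · simpa [hg, h0] using cdf.eventually_apply_implicitFunction (by simp) hinv
  · filter_upwards [cdf.eventually_apply_eq_iff_implicitFunction (by simp) hinv] with v hv h
    exact hv.1 (h.trans h0.symm)

/-- the roots of a monic polynomial have polynomial size -/
theorem root_size {q : (MvPolynomial ι ℂ)[X]} (hq : q.Monic) :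
    ∃ (A : ℝ) (N : ℕ), 0 ≤ A ∧ ∀ R : ℝ, 1 ≤ R → ∀ a s, ‖a‖ ≤ R → ev2 q a s = 0 →
      ‖s‖ ≤ A * R ^ N := by
  choose A N hA h using fun i => pl_mv (q.coeff i)
  let M := ∑ i ∈ Finset.range q.natDegree, N i
  let B := ∑ i ∈ Finset.range q.natDegree, A i
  have hB : 0 ≤ B := Finset.sum_nonneg fun i _ => hA i
  refine ⟨B + 1, M, by positivity, fun R hR a s ha hs => ?_⟩
  have hm := hq.map (MvPolynomial.eval a)
  rw [ev2_eq] at hs
  have h1 := IsRoot.norm_lt_cauchyBound hm.ne_zero hs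
  have hR0 : 0 ≤ R := zero_le_one.trans hR
  have h0 : 0 ≤ B * R ^ M := by positivity
  have h2 : (q.map (MvPolynomial.eval a)).cauchyBound ≤ (B * R ^ M).toNNReal + 1 := by
    unfold cauchyBound
    rw [hm.leadingCoeff, nnnorm_one, div_one, hq.natDegree_map]
    gcongr
    refine Finset.sup_le fun i hi => ?_
    rw [← NNReal.coe_le_coe, Real.coe_toNNReal _ h0, coeff_map, coe_nnnorm]
    exact (h i R hR a a ha ha).1.trans (mul_le_mul
      (Finset.single_le_sum (fun j _ => hA j) hi)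
      (pow_le_pow_right₀ hR (Finset.single_le_sum (f := N) (fun j _ => Nat.zero_le _) hi))
      (by positivity) hB)
  have h3 : ((‖s‖₊ : NNReal) : ℝ) ≤ (((B * R ^ M).toNNReal + 1 : NNReal) : ℝ) :=
    NNReal.coe_le_coe.2 (h1.le.trans h2)
  rw [NNReal.coe_add, Real.coe_toNNReal _ h0, coe_nnnorm, NNReal.coe_one] at h3
  have := one_le_pow₀ (n := M) hR
  linarith

end Pool.Agent.Lib.MP_5c318e_ag
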