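import Pool.Agent.Lib.MP_5c318e_ag.RD.RCalc

/-! Balls lift to a Riemann domain when the lifted rays stay in a compact set. -/

set_option autoImplicit false

namespace Pool.Agent.Lib.MP_5c318e_ag

open Set Filter Topology Metric

namespace RD

variable {ι : Type} [Fintype ι] {S : Type} [TopologicalSpace S] [MeasurableSpace S] (D : RD ι S)

/-- `Γ` lifts the ray from `p` in the direction `v` up to time `t` -/
structure Ray (p : S) (v : ι → ℂ) (t : ℝ) (Γ : ℝ → S) : Prop where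
  cont : ContinuousOn Γ (Icc 0 t)
  zero : Γ 0 = p
  lift : ∀ τ ∈ Icc 0 t, D.π (Γ τ) = D.π p + τ • v

theorem unif {K : Set S} (hK : IsCompact K) : ∃ ε > 0, ∀ q ∈ K, ∃ x,
    q ∈ (D.ch x).source ∧ ball (D.π q) ε ⊆ (D.ch x).target := by
  refine hK.induction_on ⟨1, one_pos, fun _ h => h.elim⟩
    (fun s t hst ⟨ε, h0, h⟩ => ⟨ε, h0, fun q hq => h q (hst hq)⟩) ?_ fun x _ => ?_
  · rintro s t ⟨ε, h0, h⟩ ⟨ε', h0', h'⟩
    refine ⟨min ε ε', lt_min h0 h0', ?_⟩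
    rintro q (hq | hq)
    · obtain ⟨x, a, b⟩ := h q hq
      exact ⟨x, a, (ball_subset_ball (min_le_left _ _)).trans b⟩
    · obtain ⟨x, a, b⟩ := h' q hq
      exact ⟨x, a, (ball_subset_ball (min_le_right _ _)).trans b⟩
  · obtain ⟨r, hr, hb⟩ := Metric.mem_nhds_iff.1 (tgt_nhds (D.mem_tgt x))
    refine ⟨(D.ch x).source ∩ D.π ⁻¹' ball (D.π x) (r / 2), mem_nhdsWithin_of_mem_nhds
      (inter_mem ((D.ch x).open_source.mem_nhds (D.mem_src x))
        (D.cont_π.continuousAt (ball_mem_nhds _ (half_pos hr)))), r / 2, half_pos hr,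
      fun q hq => ⟨x, hq.1, (ball_subset_ball' ?_).trans hb⟩⟩
    linarith [mem_ball.1 hq.2]

variable {D} {p : S} {v : ι → ℂ}

theorem Ray.step {t t' ε : ℝ} {Γ : ℝ → S} (h : D.Ray p v t Γ) (h0 : 0 ≤ t) (htt : t ≤ t') {x : S}
    (hx : Γ t ∈ (D.ch x).source) (hb : ball (D.π (Γ t)) ε ⊆ (D.ch x).target)
    (he : (t' - t) * ‖v‖ < ε) : ∃ Γ', D.Ray p v t' Γ' := by
  classical
  have ht := h.lift t ⟨h0, le_rfl⟩
  have hm : ∀ τ ∈ Icc t t', D.π p + τ • v ∈ (D.ch x).target := fun τ hτ => hb (by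
    rw [mem_ball_iff_norm, ht, add_sub_add_left_eq_sub, ← sub_smul, norm_smul,
      Real.norm_of_nonneg (sub_nonneg.2 hτ.1)]
    exact (mul_le_mul_of_nonneg_right (by linarith [hτ.2]) (norm_nonneg _)).trans_lt he)
  refine ⟨fun τ => if τ ≤ t then Γ τ else D.sec x (D.π p + τ • v), ?_, ?_, fun τ hτ => ?_⟩
  · rw [← Icc_union_Icc_eq_Icc h0 htt]
    refine ContinuousOn.union_of_isClosed (h.cont.congr fun τ hτ => if_pos hτ.2)
      (ContinuousOn.congr (f := fun τ : ℝ => D.sec x (D.π p + τ • v))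
        ((D.sec_contOn x).comp (by fun_prop) hm) fun τ hτ => ?_) isClosed_Icc isClosed_Icc
    by_cases e : τ ≤ t
    · obtain rfl := le_antisymm e hτ.1
      exact (if_pos e).trans (by simp only [← ht, sec_π hx])
    · exact if_neg e
  · exact (if_pos h0).trans h.zero
  · by_cases e : τ ≤ t
    · rw [if_pos e]; exact h.lift τ ⟨hτ.1, e⟩
    · rw [if_neg e]; exact π_sec (hm τ ⟨(not_le.1 e).le, hτ.2⟩)

theorem exists_ray {K : Set S} (hK : IsCompact K)
    (H : ∀ t ∈ Icc (0 : ℝ) 1, ∀ Γ, D.Ray p v t Γ → Γ t ∈ K) : ∃ Γ, D.Ray p v 1 Γ := by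
  obtain ⟨ε, h0, h⟩ := D.unif hK
  obtain ⟨n, hn⟩ := exists_nat_gt (‖v‖ / ε)
  have n0 : (0 : ℝ) < n := (div_nonneg (norm_nonneg _) h0.le).trans_lt hn
  have key : ∀ k : ℕ, k ≤ n → ∃ Γ, D.Ray p v (k / n) Γ := fun k => by
    induction k with
    | zero =>
      refine fun _ => ⟨fun _ => p, continuousOn_const, rfl, fun τ hτ => ?_⟩
      obtain rfl : τ = 0 := le_antisymm (by simpa using hτ.2) hτ.1
      simp
    | succ k ih =>
      intro hk
      obtain ⟨Γ, hΓ⟩ := ih (Nat.le_of_succ_le hk)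
      have k0 : (0 : ℝ) ≤ k / n := by positivity
      obtain ⟨x, a, b⟩ := h _ (H _ ⟨k0, (div_le_one n0).2 (Nat.cast_le.2 (Nat.le_of_succ_le hk))⟩
        Γ hΓ)
      refine hΓ.step k0 (by gcongr; exact Nat.le_succ k) a b ?_
      rw [← sub_div, Nat.cast_succ, add_sub_cancel_left, one_div, inv_mul_lt_iff₀ n0]
      exact (div_lt_iff₀ h0).1 hn
  simpa [n0.ne'] using key n le_rfl

/-- along a lifted ray a holomorphic map has the expected derivative -/
theorem Ray.deriv {E : Type} [NormedAddCommGroup E] [NormedSpace ℂ E] {g : S → E} (hg : D.Hol g)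
    {t τ : ℝ} {Γ : ℝ → S} (h : D.Ray p v t Γ) (hτ : τ ∈ Ico 0 t) :
    HasDerivWithinAt (fun s => g (Γ s))
      (fderiv ℂ (fun z => g (D.sec (Γ τ) z)) (D.π (Γ τ)) v) (Ici τ) τ := by
  have hI : Icc 0 t ∈ 𝓝[≥] τ := mem_of_superset (Icc_mem_nhdsGE hτ.2) (Icc_subset_Icc_left hτ.1)
  have h1 : HasDerivAt (fun s : ℝ => D.π p + s • v) v τ := by
    simpa using ((hasDerivAt_id τ).smul_const v).const_add (D.π p)
  have h2 := ((hg (Γ τ)).hasFDerivAt.restrictScalars ℝ).comp_hasDerivAt_of_eq τ h1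
    (h.lift τ ⟨hτ.1, hτ.2.le⟩)
  refine h2.hasDerivWithinAt.congr_of_eventuallyEq ?_ ?_
  · have h3 : Tendsto Γ (𝓝[≥] τ) (𝓝 (Γ τ)) :=
      (h.cont τ ⟨hτ.1, hτ.2.le⟩).mono_of_mem_nhdsWithin hI
    filter_upwards [hI, h3 ((D.ch _).open_source.mem_nhds (D.mem_src _))] with s a b
    rw [Function.comp_apply, ← h.lift s a, sec_π b]
  · rw [Function.comp_apply, ← h.lift τ ⟨hτ.1, hτ.2.le⟩, D.sec_self]

variable [T2Space S]

variable (D) in
/-- uniqueness of lifts -/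
theorem lift_unique {A : Type} [TopologicalSpace A] {U : Set A} (hU : IsPreconnected U)
    {f g : A → S} (hf : ContinuousOn f U) (hg : ContinuousOn g U)
    (h : ∀ a ∈ U, D.π (f a) = D.π (g a)) {a : A} (ha : a ∈ U) (e : f a = g a) : EqOn f g U :=
  (T2Space.isSeparatedMap D.π).eqOn_of_comp_eqOn D.loc.isLocallyInjective hU hf hg h ha e

theorem lift_of_ray {r : ℝ} (hr : 0 < r) {K : Set S} (hK : IsCompact K)
    (H : ∀ v, ‖v‖ < r → ∀ t ∈ Icc (0 : ℝ) 1, ∀ Γ, D.Ray p v t Γ → Γ t ∈ K) :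
    ∃ σ : (ι → ℂ) → S, σ (D.π p) = p ∧ ContinuousOn σ (ball (D.π p) r) ∧
      ∀ w ∈ ball (D.π p) r, D.π (σ w) = w ∧ σ w ∈ K := by
  classical
  choose Γ hΓ using fun a : ball (D.π p) r =>
    exists_ray hK (H (a - D.π p) (mem_ball_iff_norm.1 a.2))
  have hc : Continuous fun u : unitInterval × ball (D.π p) r => Γ u.2 u.1 :=
    D.loc.continuous_lift (A := ball (D.π p) r) (T2Space.isSeparatedMap D.π)
      ⟨fun u => D.π p + (u.1 : ℝ) • ((u.2 : ι → ℂ) - D.π p), by fun_prop⟩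
      (funext fun u => (hΓ u.2).lift u.1 u.1.2)
      (continuous_const.congr fun a => (hΓ a).zero.symm)
      fun a => (hΓ a).cont.comp_continuous continuous_subtype_val fun t => t.2
  have h1 : (1 : ℝ) ∈ Icc (0 : ℝ) 1 := ⟨zero_le_one, le_rfl⟩
  refine ⟨fun w => if h : w ∈ ball (D.π p) r then Γ ⟨w, h⟩ 1 else p, ?_, ?_, fun w hw => ?_⟩
  · have hp := hΓ ⟨_, mem_ball_self hr⟩
    exact (dif_pos (mem_ball_self hr)).trans (D.lift_unique isPreconnected_Icc hp.cont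
      (g := fun _ => p) continuousOn_const (fun τ hτ => by simpa using hp.lift τ hτ)
      ⟨le_rfl, zero_le_one⟩ hp.zero h1)
  · rw [continuousOn_iff_continuous_domRestrict]
    exact (hc.comp (Continuous.prodMk_right 1)).congr fun a =>
      (dif_pos a.2 : (if h : a.1 ∈ ball (D.π p) r then Γ ⟨a.1, h⟩ 1 else p) = _).symm
  · beta_reduce
    rw [dif_pos hw]
    exact ⟨by simpa using (hΓ ⟨w, hw⟩).lift 1 h1,
      H _ (mem_ball_iff_norm.1 hw) 1 h1 _ (hΓ ⟨w, hw⟩)⟩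

end RD

end Pool.Agent.Lib.MP_5c318e_ag
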