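import Pool.Agent.Lib.MP_5c318e_ag.C.Psi
import Pool.Agent.Lib.MP_5c318e_ag.C.Ray
import Pool.Agent.Lib.MP_5c318e_ag.S.PBas

/-! The exhaustion function of an arbitrary chart; balls of moderate radius lift. -/

set_option autoImplicit false

namespace Pool.Agent.Lib.MP_5c318e_ag

open Set Filter Topology Metric
open scoped ContDiff

variable {ι F : Type} [Fintype ι] [DecidableEq ι] [Field F] [Algebra ℂ F]

/-- regular at all points of `h ≠ 0` -/
theorem Pt.mem_locAway {A : Subalgebra ℂ F} [Algebra.FiniteType ℂ A] {h : A} {φ : F}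
    (H : ∀ p : Pt A, p h ≠ 0 → p.Reg φ) : φ ∈ locAway A h := by
  let J : Ideal A :=
    { carrier := {b | φ * b ∈ A}
      add_mem' := fun {a b} ha hb => by
        change φ * (a + b : F) ∈ A
        rw [mul_add]; exact add_mem ha hb
      zero_mem' := by change φ * (0 : F) ∈ A; rw [mul_zero]; exact zero_mem _
      smul_mem' := fun c b hb => by
        change φ * (c * b : F) ∈ A
        rw [mul_left_comm]; exact mul_mem c.2 hb }
  by_cases hh : h ∈ J.radical
  · obtain ⟨k, hk⟩ := hh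
    exact ⟨k, ⟨_, hk⟩, rfl⟩
  · obtain ⟨p, h1, h2⟩ := Pt.exists_zero_ne hh
    obtain ⟨a, b, hb, e⟩ := H p h2
    exact (hb (h1 b (show φ * b ∈ A from e ▸ a.2))).elim

theorem pt_eval₂ {O κ : Type} [CommRing O] [Algebra ℂ O] (p : Pt O) (z : κ → O)
    (g : MvPolynomial κ ℂ) : p (MvPolynomial.eval₂ (Algebra.ofId ℂ O : ℂ →+* O) z g) =
      MvPolynomial.eval (fun i => p (z i)) g := by
  induction g using MvPolynomial.induction_on with
  | C c => simp
  | add a b ha hb => rw [MvPolynomial.eval₂_add, map_add, map_add, ha, hb]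
  | mul_X a i ha =>
    rw [MvPolynomial.eval₂_mul, map_mul, map_mul, ha, MvPolynomial.eval₂_X, MvPolynomial.eval_X]

theorem pt_ev2 {O κ : Type} [CommRing O] [Algebra ℂ O] (p : Pt O) (z : κ → O) (w : O)
    (q : Polynomial (MvPolynomial κ ℂ)) :
    p (q.eval₂ (MvPolynomial.eval₂Hom (Algebra.ofId ℂ O : ℂ →+* O) z) w) =
      ev2 q (fun i => p (z i)) (p w) := by
  induction q using Polynomial.induction_on' with
  | add a b ha hb => rw [Polynomial.eval₂_add, map_add, ha, hb, ev2_add]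
  | monomial k g =>
    rw [Polynomial.eval₂_monomial, map_mul, map_pow, ev2_monomial, MvPolynomial.coe_eval₂Hom,
      pt_eval₂]

namespace Cht

variable (c : Cht ι F)

/-- the values on the generators -/
def emb (p : Pt c.O) : c.gens → ℂ := fun a => p a

theorem adjoin_gens : Algebra.adjoin ℂ (range fun a : c.gens => (a : c.O)) = ⊤ := by
  rw [show (range fun a : c.gens => (a : c.O)) = (c.gens : Set c.O) from Subtype.range_coe]
  exact (Algebra.FiniteType.out (R := ℂ) (A := c.O)).choose_spec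

theorem π_eq' (p : Pt c.O) : c.D.π p = fun i => p (c.z i) := funext (c.π_eq p)

theorem siz_eq (p : Pt c.O) : c.siz p = Real.log (Hyp.nsq (c.emb p)) := by
  rw [siz, Hyp.nsq, ← Finset.sum_coe_sort c.gens]; rfl

theorem exp_siz (p : Pt c.O) : Real.exp (c.siz p) = Hyp.nsq (c.emb p) := by
  rw [siz_eq, Real.exp_log (Hyp.nsq_pos _)]

theorem siz_nonneg (p : Pt c.O) : 0 ≤ c.siz p := by
  rw [siz_eq]; exact Real.log_nonneg (Hyp.one_le_nsq _)

theorem cont_emb : Continuous c.emb := continuous_pi fun _ => Pt.continuous_apply _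

theorem hol_emb : c.D.Hol c.emb := fun p => differentiableAt_pi.2 fun a => c.hol a p

theorem exists_pol (φ : c.O) :
    ∃ P : MvPolynomial c.gens ℂ, ∀ p : Pt c.O, p φ = MvPolynomial.eval (c.emb p) P := by
  have : φ ∈ Algebra.adjoin ℂ (range fun a : c.gens => (a : c.O)) := c.adjoin_gens ▸ trivial
  rw [Algebra.adjoin_range_eq_range_aeval] at this
  obtain ⟨P, rfl⟩ := this
  exact ⟨P, fun p => pt_eval₂ p _ P⟩

theorem md_emb : Md c.siz fun p => ‖c.emb p‖ :=
  ((Md.const c.siz_nonneg 2).mul Md.exp fun _ => (Real.exp_pos _).le).mono fun p => by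
    rw [exp_siz]; linarith [norm_le_two_nsq (c.emb p)]

theorem md (φ : c.O) : Md c.siz fun p => ‖p φ‖ := by
  obtain ⟨P, h⟩ := c.exists_pol φ
  simpa only [h] using Md.pl c.siz_nonneg (pl_mv P) c.md_emb

theorem cpt_emb {K : Set (c.gens → ℂ)} (hK : IsCompact K) : IsCompact (c.emb ⁻¹' K) := by
  obtain ⟨r, hr⟩ := hK.isBounded.exists_norm_le
  exact (Pt.isCompact_gens _ c.adjoin_gens r).of_isClosed_subset (hK.isClosed.preimage c.cont_emb)
    fun p hp a => (norm_le_pi_norm (c.emb p) a).trans (hr _ hp)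

theorem psh : c.D.Psh c.siz :=
  ⟨fun p => MP_9ff3e7_ag.F.contDiffAt_log_sos c.gens (f := fun a z => c.D.sec p z a)
      (fun a _ => Hyp.hol_ana (c.hol a) p) (by positivity),
    fun p ξ => MP_9ff3e7_ag.F.levi_log_sos_nonneg c.gens (f := fun a z => c.D.sec p z a)
      (fun a _ => Hyp.hol_ana (c.hol a) p) zero_le_one (by positivity) ξ⟩

theorem exh : c.D.Exh c.siz := ⟨c.psh, fun t =>
  (c.cpt_emb (isCompact_closedBall 0 (2 * Real.exp t))).of_isClosed_subset
    (isClosed_le c.psh.1.cont continuous_const) fun p hp => by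
      have h := Real.exp_le_exp.2 hp
      rw [exp_siz] at h
      exact mem_closedBall_zero_iff.2 (by linarith [norm_le_two_nsq (c.emb p)])⟩

theorem siz_near {p q : Pt c.O} 
    (h : ‖c.emb q - c.emb p‖ ≤ (2 * (Fintype.card c.gens : ℝ) + 1)⁻¹) :
    |c.siz q - c.siz p| ≤ 1 := by
  have h0 : (1 : ℝ) ≤ 2 * Fintype.card c.gens + 1 := le_add_of_nonneg_left (by positivity)
  have a1 := log_near (Hyp.nsq_pos _) (Hyp.nsq_pos _) (nsq_near h (inv_le_one_of_one_le₀ h0))
  have a2 := log_near (Hyp.nsq_pos _) (Hyp.nsq_pos _)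
    (nsq_near ((norm_sub_rev _ _).trans_le h) (inv_le_one_of_one_le₀ h0))
  rw [mul_inv_cancel₀ (by positivity)] at a1 a2
  rw [siz_eq, siz_eq, abs_le]
  constructor <;> linarith

theorem fd_apply (φ : c.O) (p : Pt c.O) (v : ι → ℂ) :
    c.D.fd (fun q => q φ) p v = ∑ i, v i * p ⟨c.der i φ, c.der_mem i φ φ.2⟩ := by
  conv_lhs => rw [pi_eq_sum_univ' v]
  simp only [map_sum, map_smul, c.fd_eq, smul_eq_mul]

theorem fd_emb_le : ∃ G : Pt c.O → ℝ, Md c.siz G ∧ ∀ p v, ‖c.D.fd c.emb p v‖ ≤ ‖v‖ * G p := by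
  refine ⟨fun p => ∑ a : c.gens, ∑ i, ‖p ⟨c.der i a, c.der_mem i _ a.1.2⟩‖,
    Md.sum c.siz_nonneg _ fun a _ => Md.sum c.siz_nonneg _ fun i _ => c.md _, fun p v => ?_⟩
  refine (pi_norm_le_iff_of_nonneg (by positivity)).2 fun a => ?_
  have e : c.D.fd c.emb p v a = c.D.fd (fun q => q a.1) p v :=
    congrArg (fun L : (ι → ℂ) →L[ℂ] c.gens → ℂ => L v a)
      (fderiv_pi (φ := fun (a : c.gens) z => c.D.sec p z a.1) fun a => c.hol a.1 p)
  rw [e, fd_apply]
  refine (norm_sum_le _ _).trans (le_trans ?_ (mul_le_mul_of_nonneg_left (Finset.single_le_sum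
    (f := fun a : c.gens => ∑ i, ‖p ⟨c.der i a, c.der_mem i _ a.1.2⟩‖)
    (fun _ _ => by positivity) (Finset.mem_univ a)) (norm_nonneg _)))
  rw [Finset.mul_sum]
  exact Finset.sum_le_sum fun i _ => (norm_mul_le _ _).trans
    (mul_le_mul_of_nonneg_right (norm_le_pi_norm v i) (norm_nonneg _))

/-- (R) for every chart -/
theorem lift_bal : ∃ K : ℝ, 0 ≤ K ∧ ∀ p, ∃ σ : (ι → ℂ) → Pt c.O, σ (c.D.π p) = p ∧
    ContinuousOn σ (Hyp.bal c.D K c.siz p) ∧
    ∀ w ∈ Hyp.bal c.D K c.siz p, c.D.π (σ w) = w ∧ |c.siz (σ w) - c.siz p| ≤ 1 := by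
  obtain ⟨G, ⟨K, hK, hG⟩, hd⟩ := c.fd_emb_le
  set m : ℝ := 2 * Fintype.card c.gens + 1 with hm
  have m0 : 0 < m := by positivity
  refine ⟨2 * K + m, by positivity, fun p => ?_⟩
  obtain ⟨σ, a, b, d⟩ := RD.lift_of_ray (D := c.D) (p := p)
    (Real.exp_pos (-((2 * K + m) * c.siz p + (2 * K + m))))
    (c.cpt_emb (isCompact_closedBall (c.emb p) m⁻¹)) fun v hv t ht Γ h => by
      refine mem_closedBall_iff_norm.2 ((image_norm_le_of_norm_deriv_right_lt_deriv_boundary
        (f := fun s => c.emb (Γ s) - c.emb p) (B := fun s => m⁻¹ * s) (B' := fun _ => m⁻¹)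
        ((c.cont_emb.comp_continuousOn h.cont).sub continuousOn_const)
        (fun τ hτ => (h.deriv c.hol_emb hτ).sub_const _) (by simp [h.zero])
        (fun s => by simpa using (hasDerivAt_id s).const_mul m⁻¹) (fun τ hτ e => ?_)
        (x := t) ⟨ht.1, le_rfl⟩).trans (mul_le_of_le_one_right (by positivity) ht.2))
      · have e1 := (abs_le.1 (c.siz_near (e.le.trans
          (mul_le_of_le_one_right (by positivity) (hτ.2.le.trans ht.2))))).2
        have s0 := c.siz_nonneg p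
        refine (hd _ v).trans_lt ((mul_le_mul_of_nonneg_left (hG _) (norm_nonneg _)).trans_lt
          ((mul_lt_mul_of_pos_right hv (Real.exp_pos _)).trans_le ?_))
        rw [← Real.exp_add]
        refine (Real.exp_le_exp.2 (show _ ≤ -m by nlinarith)).trans ?_
        rw [Real.exp_neg]
        exact inv_anti₀ m0 (by linarith [Real.add_one_le_exp m])
  exact ⟨σ, a, b, fun w hw => ⟨(d w hw).1, c.siz_near (mem_closedBall_iff_norm.1 (d w hw).2)⟩⟩

variable (h : Fini (Algebra.ofId ℂ c.O) c.z) (C : c.D.Cov)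

/-- regular functions on a finite chart are moderate -/
theorem md_cov (hΔ : C.Δ = h.Δ) (hw : ∀ p, C.w p = p h.w) (φ : c.O) : Md C.ψ fun p => ‖p φ‖ := by
  obtain ⟨P, j, e⟩ := h.gen φ
  refine (C.md_ev2 P j).mono fun p => le_of_eq ?_
  have := congrArg p e
  rw [map_mul, map_pow, pt_eval₂, pt_ev2, ← c.π_eq', ← hΔ, ← hw] at this
  rw [← this, mul_div_cancel_right₀ _ (pow_ne_zero _ (C.Δ_ne p))]

/-- on a finite chart the two exhaustions are comparable -/
theorem siz_ψ (hΔ : C.Δ = h.Δ) (hw : ∀ p, C.w p = p h.w) :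
    ∃ L : ℝ, 0 ≤ L ∧ ∀ p, c.siz p ≤ L * C.ψ p + L ∧ C.ψ p ≤ L * c.siz p + L := by
  obtain ⟨K, hK, h1⟩ := (Md.add C.ψ_nonneg (Md.sum C.ψ_nonneg c.gens fun a _ =>
    (c.md_cov h C hΔ hw a).pow C.ψ_nonneg (fun _ => norm_nonneg _) 2)
    (Md.const C.ψ_nonneg 1)).log_le fun p => by positivity
  obtain ⟨u, hu⟩ := h.unit.exists_right_inv
  have s0 := c.siz_nonneg
  obtain ⟨K', hK', h2⟩ := (((Md.const s0 2).mul (Md.add s0 (Md.sum s0 Finset.univ fun i _ =>
    (c.md (c.z i)).pow s0 (fun _ => norm_nonneg _) 2) (Md.const s0 1))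
    (fun p => by positivity)).pow s0 (fun p => by positivity) C.A).mul
    ((c.md u).pow s0 (fun _ => norm_nonneg _) 2) fun p => by positivity
  refine ⟨K + K', by positivity, fun p => ⟨?_, ?_⟩⟩
  · have := h1 p
    have := mul_nonneg hK' (C.ψ_nonneg p)
    unfold siz
    linarith
  · have e := congrArg p hu
    rw [map_mul, map_one, pt_eval₂, ← c.π_eq', ← hΔ] at e
    have : C.ψ p ≤ K' * c.siz p + K' := Real.exp_le_exp.1 (le_of_eq_of_le (by
      simp only [C.exp_ψ, eq_inv_of_mul_eq_one_right e, norm_inv, inv_pow, div_eq_mul_inv,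
        Hyp.nsq, c.π_eq]) (h2 p))
    have := mul_nonneg hK (s0 p)
    linarith

end Cht

end Pool.Agent.Lib.MP_5c318e_ag
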