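import Pool.Agent.Lib.MP_5c318e_ag.C.Psi
import Pool.Agent.Lib.MP_5c318e_ag.C.Siz
import Pool.Agent.Lib.MP_5c318e_ag.S.CCov
import Pool.Agent.Lib.MP_5c318e_ag.S.CVA
import Pool.Agent.Lib.MP_5c318e_ag.S.APlu

/-! Properties of the collar of a prime divisor. -/

set_option autoImplicit false
set_option linter.unusedSectionVars false
set_option linter.unusedVariables false

namespace Pool.Agent.Lib.MP_5c318e_ag

open Set Filter Topology Metric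
open Pool.Agent.Lib.MP_9ff3e7_ag

variable {ι F : Type} [Fintype ι] [DecidableEq ι] [Field F] [Algebra ℂ F]

/-- `ins` as a linear map -/
noncomputable def insL (i0 : ι) : (ℂ × ({i // i ≠ i0} → ℂ)) →L[ℂ] (ι → ℂ) :=
  ContinuousLinearMap.pi fun i => if h : i = i0 then ContinuousLinearMap.fst ℂ _ _ else
    (ContinuousLinearMap.proj ⟨i, h⟩).comp (ContinuousLinearMap.snd ℂ _ _)

theorem insL_apply (i0 : ι) (u : ℂ × ({i // i ≠ i0} → ℂ)) : insL i0 u = ins i0 u.1 u.2 := by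
  funext i
  by_cases h : i = i0 <;> simp [insL, ins, h]

theorem insL_inj (i0 : ι) : Function.Injective (insL i0) := fun u v h => by
  rw [insL_apply, insL_apply] at h
  refine Prod.ext ?_ (funext fun i => ?_)
  · simpa [ins] using congrFun h i0
  · simpa [ins, i.2] using congrFun h i

theorem Cht.col_exists (c : Cht ι F) {U : Set (Pt c.O)} (hU : IsOpen U) (hne : U.Nonempty)
    {Q : Pt c.O → Prop} (h : ∀ᶠ q in c.D.gen, Q q) : ∃ q ∈ U, Q q := by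
  have := c.D.openPos
  by_contra hn
  push Not at hn
  exact hU.measure_ne_zero c.D.μ hne (MeasureTheory.measure_mono_null (fun q hq => hn q hq)
    (MeasureTheory.ae_iff.1 (c.D.ae_of_gen h)))

namespace Collar

variable {C : Cht ι F} {P : ValuationSubring F} {i0 : ι} {k : Type} [Field k] [Algebra ℂ k]
  (Γ : Collar C P i0 k)

/-- smaller radius, same data -/
theorem shrink {K : ℝ} (h : Γ.K ≤ K) : ∃ Γ' : Collar C P i0 k, Γ'.K = K ∧ Γ'.rs = Γ.rs ∧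
    ∃ e : Γ'.S = Γ.S, HEq Γ'.cov Γ.cov ∧ HEq Γ'.σ Γ.σ ∧ HEq Γ'.Φ Γ.Φ ∧ HEq Γ'.res Γ.res := by
  have h1 : ∀ p, Γ.K * Γ.cov.ψ p + Γ.K ≤ K * Γ.cov.ψ p + K := fun p =>
    add_le_add (mul_le_mul_of_nonneg_right h (Γ.cov.ψ_nonneg p)) h
  have h2 : ∀ p, Real.exp (-(K * Γ.cov.ψ p + K)) ≤ Real.exp (-(Γ.K * Γ.cov.ψ p + Γ.K)) := fun p =>
    Real.exp_le_exp.2 (neg_le_neg (h1 p))
  have h3 : ∀ p, Hyp.bal Γ.S.D K Γ.cov.ψ p ⊆ Hyp.bal Γ.S.D Γ.K Γ.cov.ψ p := fun p =>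
    ball_subset_ball (h2 p)
  have h4 : ∀ p, ball (0 : ℂ) (Real.exp (-(K * Γ.cov.ψ p + K))) ×ˢ Hyp.bal Γ.S.D K Γ.cov.ψ p ⊆
      Γ.dom p := fun p => prod_mono (ball_subset_ball (h2 p)) (h3 p)
  obtain ⟨L, hL, hs⟩ := Γ.siz
  exact ⟨{ Γ with
    K := K
    tame := ⟨Γ.tame.sheets, Γ.tame.A0, Γ.tame.C0.trans h, Γ.tame.sm, Γ.tame.cpt, Γ.tame.lev,
      fun p => (Γ.tame.grow p).trans (h1 p), fun p => (Γ.tame.cont p).mono (h3 p), Γ.tame.base,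
      fun p z hz => Γ.tame.lift p z (h3 p hz)⟩
    osc := fun p w hw => Γ.osc p w (h3 p hw)
    cont := fun p => (Γ.cont p).mono (h4 p)
    coord := fun p u hu => Γ.coord p u (h4 p hu)
    siz := ⟨L, hL, fun p u hu => hs p u (h4 p hu)⟩ }, rfl, rfl, rfl, HEq.rfl, HEq.rfl, HEq.rfl,
    HEq.rfl⟩

theorem H_self (p : Pt Γ.S.O) (ζ : ℂ) : Γ.H p (ζ, Γ.S.D.π p) = Γ.Φ ζ p := by
  simp only [H, Γ.tame.base]

theorem H_π (p : Pt Γ.S.O) {u} (hu : u ∈ Γ.dom p) : C.D.π (Γ.H p u) = insL i0 u :=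
  (Γ.coord p u hu).trans (insL_apply i0 u).symm

theorem H_z (p : Pt Γ.S.O) {u} (hu : u ∈ Γ.dom p) : Γ.H p u (C.z i0) = u.1 := by
  rw [← C.π_eq, Γ.coord p u hu]
  simp [ins]

theorem isOpen_dom (p : Pt Γ.S.O) : IsOpen (Γ.dom p) := isOpen_ball.prod isOpen_ball

theorem isOpen_dom0 (p : Pt Γ.S.O) : IsOpen (Γ.dom0 p) :=
  (isOpen_ball.sdiff isClosed_singleton).prod isOpen_ball

theorem dom0_sub (p : Pt Γ.S.O) : Γ.dom0 p ⊆ Γ.dom p := prod_mono sdiff_subset Subset.rfl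

theorem H_contAt (p : Pt Γ.S.O) {u} (hu : u ∈ Γ.dom p) : ContinuousAt (Γ.H p) u :=
  (Γ.cont p).continuousAt ((Γ.isOpen_dom p).mem_nhds hu)

theorem H_germ (p : Pt Γ.S.O) {u} (hu : u ∈ Γ.dom p) :
    Γ.H p =ᶠ[𝓝 u] fun v => C.D.sec (Γ.H p u) (insL i0 v) := by
  filter_upwards [(Γ.isOpen_dom p).mem_nhds hu, (Γ.H_contAt p hu).eventually
    ((C.D.ch (Γ.H p u)).open_source.mem_nhds (C.D.mem_src _))] with v h1 h2
  rw [← Γ.H_π p h1, RD.sec_π h2]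

theorem H_fd {E : Type} [NormedAddCommGroup E] [NormedSpace ℂ E] (p : Pt Γ.S.O) {u}
    (hu : u ∈ Γ.dom p) {g : Pt C.O → E}
    (hg : DifferentiableAt ℂ (fun z => g (C.D.sec (Γ.H p u) z)) (C.D.π (Γ.H p u))) :
    HasFDerivAt (fun v => g (Γ.H p v)) ((C.D.fd g (Γ.H p u)).comp (insL i0)) u := by
  have h1 := hg.hasFDerivAt
  rw [RD.fd]
  rw [Γ.H_π p hu] at h1 ⊢
  exact (h1.comp u (insL i0).hasFDerivAt).congr_of_eventuallyEq ((Γ.H_germ p hu).fun_comp g)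

/-- holomorphic functions near the image stay holomorphic -/
theorem hol {E : Type} [NormedAddCommGroup E] [NormedSpace ℂ E] (p : Pt Γ.S.O) {u} (hu : u ∈ Γ.dom p)
    {g : Pt C.O → E} (hg : DifferentiableAt ℂ (fun z => g (C.D.sec (Γ.H p u) z)) (C.D.π (Γ.H p u))) :
    DifferentiableAt ℂ (fun v => g (Γ.H p v)) u := (Γ.H_fd p hu hg).differentiableAt

theorem hol_O (a : C.O) (p : Pt Γ.S.O) : DifferentiableOn ℂ (fun u => Γ.H p u a) (Γ.dom p) :=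
  fun _ hu => (Γ.hol p hu (g := fun q => q a) (C.hol a _)).differentiableWithinAt

theorem hol_ev (p : Pt Γ.S.O) {u} (hu : u ∈ Γ.dom p) {φ : F} (h : (Γ.H p u).Reg φ) :
    DifferentiableAt ℂ (fun v => (Γ.H p v).ev φ) u :=
  Γ.hol p hu (g := fun q => q.ev φ) (C.cvEv.diff h).1

theorem bd (a : C.O) : ∃ L : ℝ, 0 ≤ L ∧ ∀ p, ∀ u ∈ Γ.dom p, ‖Γ.H p u a‖ ≤ Real.exp (L * Γ.ψ p + L) := by
  obtain ⟨K, hK, h⟩ := C.md a
  obtain ⟨L, hL, hs⟩ := Γ.siz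
  refine ⟨K * L + K, by positivity, fun p u hu => (h _).trans (Real.exp_le_exp.2 ?_)⟩
  have h1 := mul_le_mul_of_nonneg_left (hs p u hu) hK
  have h2 := mul_nonneg hK (Γ.cov.ψ_nonneg p)
  simp only [H, ψ]
  nlinarith

theorem self_mem (q : Pt Γ.S.O) {ζ : ℂ} (h : ζ ∈ ball (0 : ℂ) (Γ.ρ q)) :
    (ζ, Γ.S.D.π q) ∈ Γ.dom q := ⟨h, mem_ball_self (Real.exp_pos _)⟩

theorem tendsto_Φ (q : Pt Γ.S.O) : Tendsto (fun ζ => Γ.Φ ζ q) (𝓝 0) (𝓝 (q.res Γ.res)) := by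
  have h := (Γ.H_contAt q (Γ.self_mem q (mem_ball_self (Real.exp_pos _)))).tendsto.comp
    ((continuous_id.prodMk (continuous_const (y := Γ.S.D.π q))).tendsto 0)
  rw [Γ.H_self, Γ.zero] at h
  exact h.congr fun ζ => Γ.H_self q ζ

/-- the residue is the limit, at EVERY point of `S` -/
theorem tendsto_res (a : C.O) (q : Pt Γ.S.O) :
    Tendsto (fun ζ => Γ.Φ ζ q a) (𝓝 0) (𝓝 (q (Γ.res a))) := Pt.tendsto_iff.1 (Γ.tendsto_Φ q) a

theorem ev_z (q : Pt Γ.S.O) : ∀ᶠ ζ in 𝓝 (0 : ℂ), Γ.Φ ζ q (C.z i0) = ζ := by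
  filter_upwards [ball_mem_nhds (0 : ℂ) (Real.exp_pos _ : 0 < Γ.ρ q)] with ζ h
  rw [← Γ.H_self, Γ.H_z q (Γ.self_mem q h)]

include Γ in
/-- an element with poles along `z = 0` only and no pole is regular -/
theorem mem_O {φ : F} (h : φ ∈ locAway C.O (C.z i0)) (hP : φ ∈ P) : φ ∈ C.O := by
  obtain ⟨n, a, e⟩ := h
  induction n generalizing a with
  | zero => rw [show φ = a by simpa using e]; exact a.2
  | succ n ih =>
    have hz := Γ.at'.ad.lt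
    have h1 : P.valuation (a : F) < 1 := by
      rw [← e, pow_succ, MulMemClass.coe_mul, ← mul_assoc, map_mul]
      refine (mul_le_of_le_one_left' ((P.valuation_le_one_iff _).2 (P.mul_mem _ _ hP
        (Γ.at'.le _ (C.z i0 ^ n).2)))).trans_lt hz
    obtain ⟨b, rfl⟩ := Γ.at'.ker a h1
    refine ih b (mul_left_cancel₀ Γ.at'.ad.ne ?_)
    push_cast at e ⊢
    rw [← e]
    ring

theorem res_ne {b : C.O} (h : P.valuation (b : F) = 1) : Γ.res b ≠ 0 := fun e => by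
  have h1 := Γ.res_eq b
  rw [e] at h1
  exact ((Γ.rs_ker _).1 h1.symm).ne h

/-- general elements of `P`: the limit exists off a hypersurface -/
theorem tendsto_rs (φ : P) : ∀ᶠ q in Γ.S.D.gen, q.Reg (Γ.rs φ) ∧ (∀ᶠ ζ in 𝓝 0, (Γ.Φ ζ q).Reg φ) ∧
    Tendsto (fun ζ => (Γ.Φ ζ q).ev φ) (𝓝 0) (𝓝 (q.ev (Γ.rs φ))) := by
  obtain ⟨a, b, hb, e⟩ := Γ.at'.loc φ φ.2
  have e' : Γ.rs φ * (Γ.res b : k) = Γ.res a := by
    rw [Γ.res_eq, Γ.res_eq, ← map_mul]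
    exact congrArg Γ.rs (Subtype.ext e)
  filter_upwards [Γ.S.gen_ne (Γ.res_ne hb)] with q hq
  have h1 := (Γ.tendsto_res b q).eventually_ne hq
  refine ⟨⟨_, _, hq, e'⟩, h1.mono fun ζ h => ⟨a, b, h, e⟩, ?_⟩
  rw [q.ev_eq hq e']
  exact ((Γ.tendsto_res a q).div (Γ.tendsto_res b q) hq).congr'
    (h1.mono fun ζ h => (Pt.ev_eq _ h e).symm)

include Γ in
theorem exists_pow {a : C.O} (h : a ≠ 0) :
    ∃ (n : ℕ) (b : C.O), P.valuation (b : F) = 1 ∧ a = C.z i0 ^ n * b := by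
  have : IsNoetherianRing C.O := Algebra.FiniteType.isNoetherianRing ℂ C.O
  have hz : ¬ IsUnit (C.z i0) := fun hu => by
    obtain ⟨w, hw⟩ := hu.exists_right_inv
    have h1 : P.valuation (C.z i0 : F) * P.valuation (w : F) = 1 := by
      rw [← map_mul, ← MulMemClass.coe_mul, hw]; simp
    exact ((mul_le_of_le_one_right' ((P.valuation_le_one_iff _).2 (Γ.at'.le _ w.2))).trans_lt
      Γ.at'.ad.lt).ne h1
  obtain ⟨n, b, hb, e⟩ := WfDvdMonoid.max_power_factor' h hz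
  exact ⟨n, b, ((P.valuation_le_one_iff _).2 (Γ.at'.le _ b.2)).eq_of_not_lt
    fun h1 => hb (Γ.at'.ker b h1), e⟩

/-- if `φ z ^ j` is not in the maximal ideal then it does not tend to zero -/
theorem growth {φ : F} {U : Set (Pt Γ.S.O)} (hU : IsOpen U) (hne : U.Nonempty) (j : ℕ)
    (h : ∀ q ∈ U, Tendsto (fun ζ => ζ ^ j * (Γ.Φ ζ q).ev φ) (𝓝[≠] 0) (𝓝 0)) :
    P.valuation (φ * C.z i0 ^ j) < 1 := by
  rcases eq_or_ne φ 0 with rfl | h0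
  · simp
  obtain ⟨a, b, hb, e⟩ := C.frac φ
  have ha : a ≠ 0 := fun h1 => by
    rw [h1] at e
    exact mul_ne_zero h0 (fun h2 => hb (Subtype.ext h2)) e
  obtain ⟨n, a', ha', ea⟩ := Γ.exists_pow ha
  obtain ⟨m, b', hb', eb⟩ := Γ.exists_pow hb
  rw [ea, eb] at e
  clear ea eb ha hb a b
  rename' a' => a, b' => b, ha' => ha, hb' => hb
  have hz := Γ.at'.ad.lt
  have hz0 : (C.z i0 : F) ≠ 0 := Γ.at'.ad.ne
  rcases lt_or_ge m (n + j) with hl | hl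
  · obtain ⟨t, ht⟩ := Nat.exists_eq_add_of_lt hl
    have e1 : φ * C.z i0 ^ j * b = C.z i0 ^ (t + 1) * a := by
      refine mul_left_cancel₀ (pow_ne_zero m hz0) ?_
      push_cast at e
      rw [← mul_assoc _ (_ ^ (t + 1)), ← pow_add, ← add_assoc, ← ht, pow_add]
      linear_combination (C.z i0 : F) ^ j * e
    have e2 := congrArg P.valuation e1
    rw [map_mul, hb, mul_one, map_mul _ (_ ^ (t + 1)), ha, mul_one, map_pow] at e2
    rw [e2]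
    exact pow_lt_one' hz (Nat.succ_ne_zero t)
  · exfalso
    obtain ⟨t, ht⟩ := Nat.exists_eq_add_of_le hl
    obtain ⟨q, hq, h1, h2⟩ := Γ.S.col_exists hU hne
      ((Γ.S.gen_ne (Γ.res_ne ha)).and (Γ.S.gen_ne (Γ.res_ne hb)))
    have e1 : φ * (C.z i0 ^ (j + t) * b : C.O) = a := by
      refine mul_left_cancel₀ (pow_ne_zero n hz0) ?_
      push_cast at e ⊢
      rw [← e, ht]
      ring
    have t1 : Tendsto (fun ζ : ℂ => ζ ^ t * (ζ ^ j * (Γ.Φ ζ q).ev φ)) (𝓝[≠] 0) (𝓝 (0 ^ t * 0)) :=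
      (((continuous_pow t).tendsto 0).mono_left nhdsWithin_le_nhds).mul (h q hq)
    have t2 := ((Γ.tendsto_res a q).div (Γ.tendsto_res b q) h2).mono_left
      (nhdsWithin_le_nhds (s := {0}ᶜ))
    rw [mul_zero] at t1
    refine div_ne_zero h1 h2 (tendsto_nhds_unique t2 (t1.congr' ?_))
    filter_upwards [self_mem_nhdsWithin, nhdsWithin_le_nhds (Γ.ev_z q),
      nhdsWithin_le_nhds ((Γ.tendsto_res b q).eventually_ne h2)] with ζ z0 z1 z2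
    have z0 : ζ ≠ 0 := z0
    rw [Pt.ev_eq _ (by rw [map_mul, map_pow, z1]; exact mul_ne_zero (pow_ne_zero _ z0) z2) e1,
      map_mul, map_pow, z1, Pi.div_apply]
    field_simp
    ring

/-- ORDER LINK: `o(1 / |ζ|)` on an open piece means no pole -/
theorem mem_of_growth {φ : F} {U : Set (Pt Γ.S.O)} (hU : IsOpen U) (hne : U.Nonempty)
    (h : ∀ q ∈ U, Tendsto (fun ζ => ζ * (Γ.Φ ζ q).ev φ) (𝓝[≠] 0) (𝓝 0)) : φ ∈ P := by
  have h1 := Γ.at'.ad.unif _ (Γ.growth hU hne 1 (by simpa only [pow_one] using h))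
  rwa [pow_one, mul_div_cancel_right₀ _ Γ.at'.ad.ne] at h1

/-- ORDER LINK: `o(1)` on an open piece means a zero -/
theorem lt_of_growth {φ : F} {U : Set (Pt Γ.S.O)} (hU : IsOpen U) (hne : U.Nonempty)
    (h : ∀ q ∈ U, Tendsto (fun ζ => (Γ.Φ ζ q).ev φ) (𝓝[≠] 0) (𝓝 0)) : P.valuation φ < 1 := by
  simpa using Γ.growth hU hne 0 (by simpa only [pow_zero, one_mul] using h)

theorem z_ne (p : Pt Γ.S.O) {u} (hu : u ∈ Γ.dom0 p) : Γ.H p u (C.z i0) ≠ 0 := by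
  rw [Γ.H_z p (Γ.dom0_sub p hu)]
  exact hu.1.2

theorem reg_loc {φ : F} (h : φ ∈ locAway C.O (C.z i0)) (p : Pt Γ.S.O) {u} (hu : u ∈ Γ.dom0 p) :
    (Γ.H p u).Reg φ := InLoc.le (A' := locAway C.O (C.z i0)) (fun _ h => h) (Γ.z_ne p hu) h

theorem log_nonneg (p : Pt Γ.S.O) {u} (hu : u ∈ Γ.dom0 p) : 0 ≤ Real.log ‖u.1‖⁻¹ := by
  have h0 : 0 < ‖u.1‖ := norm_pos_iff.2 hu.1.2
  have h1 : ‖u.1‖ < Γ.ρ p := mem_ball_zero_iff.1 hu.1.1
  have h2 : Γ.ρ p ≤ 1 := Real.exp_le_one_iff.2 (neg_nonpos.2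
    (add_nonneg (mul_nonneg Γ.tame.C0 (Γ.cov.ψ_nonneg p)) Γ.tame.C0))
  exact Real.log_nonneg ((one_le_inv₀ h0).2 (h1.le.trans h2))

/-! the collar inside another chart `B` glued along `z ≠ 0` -/
variable {B : Cht ι F} (τ : Tr C.O B.O) (hτ : τ.h = C.z i0)
include hτ

theorem B_ne (p : Pt Γ.S.O) {u} (hu : u ∈ Γ.dom0 p) : Γ.H p u τ.h ≠ 0 := hτ ▸ Γ.z_ne p hu

theorem B_cont (p : Pt Γ.S.O) : ContinuousOn (fun u => τ.map (Γ.H p u)) (Γ.dom0 p) := fun _ hu =>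
  ((τ.continuousAt (Γ.B_ne τ hτ p hu)).comp (Γ.H_contAt p (Γ.dom0_sub p hu))).continuousWithinAt

theorem B_same (p : Pt Γ.S.O) {u} (hu : u ∈ Γ.dom0 p) : (Γ.H p u).Same (τ.map (Γ.H p u)) :=
  (τ.same _ (Γ.B_ne τ hτ p hu)).1

theorem B_germ (b : B.O) (p : Pt Γ.S.O) {u} (hu : u ∈ Γ.dom0 p) :
    (fun u => τ.map (Γ.H p u) b) =ᶠ[𝓝 u] fun u => (Γ.H p u).ev b :=
  mem_of_superset ((Γ.isOpen_dom0 p).mem_nhds hu) fun _ hv => (τ.map_apply (Γ.B_ne τ hτ p hv) b).2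

theorem B_hol (b : B.O) (p : Pt Γ.S.O) :
    DifferentiableOn ℂ (fun u => τ.map (Γ.H p u) b) (Γ.dom0 p) := fun _ hu =>
  ((Γ.hol_ev p (Γ.dom0_sub p hu) (τ.map_apply (Γ.B_ne τ hτ p hu) b).1).congr_of_eventuallyEq
    (Γ.B_germ τ hτ b p hu)).differentiableWithinAt

theorem B_π (p : Pt Γ.S.O) : DifferentiableOn ℂ (fun u => B.D.π (τ.map (Γ.H p u))) (Γ.dom0 p) :=
  differentiableOn_pi.2 fun i => by simpa only [B.π_eq] using Γ.B_hol τ hτ (B.z i) p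

theorem B_inj (p : Pt Γ.S.O) : InjOn (fun u => τ.map (Γ.H p u)) (Γ.dom0 p) := fun u hu v hv e => by
  have h := congrArg C.D.π (τ.injOn (Γ.B_ne τ hτ p hu) (Γ.B_ne τ hτ p hv) e)
  rw [Γ.H_π p (Γ.dom0_sub p hu), Γ.H_π p (Γ.dom0_sub p hv)] at h
  exact insL_inj i0 h

/-- the Jacobian matrix: entries `∂ (B.z j) / ∂ (C.z i)`, determinant `Jac`, which is a unit off `z = 0` -/
theorem B_fd (p : Pt Γ.S.O) {u} (hu : u ∈ Γ.dom0 p) (v : ℂ × ({i // i ≠ i0} → ℂ)) (j : ι) :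
    fderiv ℂ (fun u => B.D.π (τ.map (Γ.H p u))) u v j =
      ∑ i, ins i0 v.1 v.2 i * (Γ.H p u).ev (C.der i (B.z j)) := by
  have hr := fun j => (τ.map_apply (Γ.B_ne τ hτ p hu) (B.z j)).1
  have h1 : HasFDerivAt (fun u => B.D.π (τ.map (Γ.H p u))) (ContinuousLinearMap.pi fun j =>
      (C.D.fd (fun q => q.ev (B.z j)) (Γ.H p u)).comp (insL i0)) u :=
    hasFDerivAt_pi.2 fun j => by
      simp only [B.π_eq]
      exact (Γ.H_fd p (Γ.dom0_sub p hu) (g := fun q => q.ev (B.z j))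
        (C.cvEv.diff (hr j)).1).congr_of_eventuallyEq (Γ.B_germ τ hτ (B.z j) p hu)
  rw [h1.fderiv, ContinuousLinearMap.pi_apply, ContinuousLinearMap.comp_apply, insL_apply]
  generalize ins i0 v.1 v.2 = w
  conv_lhs => rw [pi_eq_sum_univ' w]
  rw [map_sum]
  refine Finset.sum_congr rfl fun i _ => ?_
  rw [map_smul, smul_eq_mul]
  exact congrArg _ ((C.cvEv.diff (hr j)).2 i)

theorem B_mem (b : B.O) : (b : F) ∈ locAway C.O (C.z i0) :=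
  Pt.mem_locAway fun _ hp => (τ.map_apply (hτ ▸ hp) b).1

theorem B_jac : Jac C.der (fun j => (B.z j : F)) ∈ locAway C.O (C.z i0) ∧
    (Jac C.der fun j => (B.z j : F))⁻¹ ∈ locAway C.O (C.z i0) := by
  refine ⟨Pt.mem_locAway fun p hp => C.cvEv.reg_jac fun j => (τ.map_apply (hτ ▸ hp) (B.z j)).1,
    Pt.mem_locAway fun p hp => ?_⟩
  have h1 := B.dual.jac_chain C.der fun i => (C.z i : F)
  rw [C.dual.jac_one] at h1
  have h2 := (τ.same p (hτ ▸ hp)).1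
  rw [← eq_inv_of_mul_eq_one_right h1.symm]
  exact (h2 _).1.2 (B.cvEv.reg_jac fun i => (h2 _).1.1 (p.reg_coe (C.z i)))

theorem B_fd_inj (p : Pt Γ.S.O) {u} (hu : u ∈ Γ.dom0 p) :
    Function.Injective (fderiv ℂ (fun u => B.D.π (τ.map (Γ.H p u))) u) := by
  obtain ⟨j1, j2⟩ := B_jac τ hτ
  have hr := fun j => (τ.map_apply (Γ.B_ne τ hτ p hu) (B.z j)).1
  have h0 : Jac C.der (fun j => (B.z j : F)) ≠ 0 := fun e => by
    have h1 := B.dual.jac_chain C.der fun i => (C.z i : F)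
    rw [C.dual.jac_one, e, zero_mul] at h1
    exact one_ne_zero h1
  have h1 := ((Γ.H p u).ev_mul (Γ.reg_loc j1 p hu) (Γ.reg_loc j2 p hu)).2
  rw [mul_inv_cancel₀ h0, Pt.ev_one] at h1
  have h2 := left_ne_zero_of_mul_eq_one h1.symm
  rw [Jac, ((Γ.H p u).ev_det (N := Matrix.of fun a b => C.der b (B.z a))
    fun a b => C.cvEv.reg (hr a) b).2] at h2
  refine (injective_iff_map_eq_zero _).2 fun v hv => insL_inj i0 ?_
  rw [map_zero, insL_apply]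
  refine Matrix.eq_zero_of_mulVec_eq_zero h2 (funext fun j => ?_)
  have h3 := Γ.B_fd τ hτ p hu v j
  rw [hv] at h3
  refine Eq.trans ?_ h3.symm
  exact Finset.sum_congr rfl fun i _ => mul_comm _ _

omit hτ in
/-- poles along `z = 0` only: holomorphic on the punctured pieces, moderate -/
theorem bd0 {φ : F} (h : φ ∈ locAway C.O (C.z i0)) : ∃ L : ℝ, 0 ≤ L ∧ ∀ p,
    DifferentiableOn ℂ (fun u => (Γ.H p u).ev φ) (Γ.dom0 p) ∧ ∀ u ∈ Γ.dom0 p, (Γ.H p u).Reg φ ∧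
      ‖(Γ.H p u).ev φ‖ ≤ Real.exp (L * Γ.ψ p + L * Real.log ‖u.1‖⁻¹ + L) := by
  obtain ⟨n, a, e⟩ := id h
  obtain ⟨L, hL, hb⟩ := Γ.bd a
  refine ⟨L + n, by positivity, fun p => ⟨fun u hu => (Γ.hol_ev p (Γ.dom0_sub p hu)
    (Γ.reg_loc h p hu)).differentiableWithinAt, fun u hu => ⟨Γ.reg_loc h p hu, ?_⟩⟩⟩
  have h0 : 0 < ‖u.1‖ := norm_pos_iff.2 hu.1.2
  rw [Pt.ev_eq _ (by rw [map_pow]; exact pow_ne_zero _ (Γ.z_ne p hu)) e, map_pow,
    Γ.H_z p (Γ.dom0_sub p hu), norm_div, norm_pow, div_eq_mul_inv, ← inv_pow,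
    ← Real.exp_log (inv_pos.2 h0), ← Real.exp_nat_mul, Real.log_exp]
  refine (mul_le_mul_of_nonneg_right (hb p u (Γ.dom0_sub p hu)) (Real.exp_pos _).le).trans ?_
  rw [← Real.exp_add]
  have h1 := mul_nonneg hL (Γ.log_nonneg p hu)
  have h2 := mul_nonneg (Nat.cast_nonneg (α := ℝ) n) (Γ.cov.ψ_nonneg p)
  have h3 := Nat.cast_nonneg (α := ℝ) n
  exact Real.exp_le_exp.2 (by simp only [ψ]; nlinarith)

theorem B_siz : ∃ L : ℝ, 0 ≤ L ∧ ∀ p, ∀ u ∈ Γ.dom0 p,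
    B.siz (τ.map (Γ.H p u)) ≤ L * Γ.ψ p + L * Real.log ‖u.1‖⁻¹ + L := by
  choose L hL hb using fun b : B.O => Γ.bd0 (B_mem τ hτ b)
  set M := ∑ b ∈ B.gens, L b with hM
  have hM0 : 0 ≤ M := Finset.sum_nonneg fun b _ => hL b
  refine ⟨2 * M + B.gens.card, by positivity, fun p u hu => ?_⟩
  have h1 := Γ.log_nonneg p hu
  have h2 : 0 ≤ Γ.ψ p := Γ.cov.ψ_nonneg p
  generalize hl : Real.log ‖u.1‖⁻¹ = l at h1
  have h3 : ∀ b ∈ B.gens, ‖τ.map (Γ.H p u) b‖ ^ 2 ≤ Real.exp (2 * M * (Γ.ψ p + l + 1)) :=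
    fun b hb' => by
      have h4 := ((hb b p).2 u hu).2
      rw [← (τ.map_apply (Γ.B_ne τ hτ p hu) b).2, hl] at h4
      refine (pow_le_pow_left₀ (norm_nonneg _) h4 2).trans ?_
      rw [← Real.exp_nat_mul]
      have h5 := mul_le_mul_of_nonneg_right
        (Finset.single_le_sum (fun b _ => hL b) hb' : L b ≤ M) (by positivity : 0 ≤ Γ.ψ p + l + 1)
      exact Real.exp_le_exp.2 (by push_cast; nlinarith)
  have h6 := Finset.sum_le_card_nsmul _ _ _ h3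
  have h7 : 1 ≤ Real.exp (2 * M * (Γ.ψ p + l + 1)) := Real.one_le_exp (by positivity)
  have h8 := Real.add_one_le_exp (B.gens.card : ℝ)
  have h9 := Nat.cast_nonneg (α := ℝ) B.gens.card
  rw [nsmul_eq_mul] at h6
  rw [Cht.siz, Real.log_le_iff_le_exp (by positivity)]
  calc _ ≤ ((B.gens.card : ℝ) + 1) * Real.exp (2 * M * (Γ.ψ p + l + 1)) := by nlinarith
    _ ≤ Real.exp (B.gens.card + 2 * M * (Γ.ψ p + l + 1)) := by
      rw [Real.exp_add]; exact mul_le_mul_of_nonneg_right h8 (by positivity)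
    _ ≤ _ := Real.exp_le_exp.2 (by nlinarith [mul_nonneg h9 h1, mul_nonneg h9 h2])

end Collar

end Pool.Agent.Lib.MP_5c318e_ag
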