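import Pool.Agent.Lib.MP_5c318e_ag.C.Siz
import Pool.Agent.Lib.MP_5c318e_ag.S.CRel
import Pool.Agent.Lib.MP_5c318e_ag.S.CCov
import Pool.Agent.Lib.MP_5c318e_ag.A.NF

/-! Existence of the collar of a prime divisor. -/

set_option autoImplicit false

namespace Pool.Agent.Lib.MP_5c318e_ag

open Set Filter Topology Metric

variable {ι F : Type} [Fintype ι] [DecidableEq ι] [Field F] [Algebra ℂ F]

section ins

omit [Fintype ι]

theorem ins_self (i0 : ι) (ζ : ℂ) (w : {i // i ≠ i0} → ℂ) : ins i0 ζ w i0 = ζ := dif_pos rfl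

theorem ins_ne (i0 : ι) (ζ : ℂ) (w : {i // i ≠ i0} → ℂ) (i : {i // i ≠ i0}) :
    ins i0 ζ w i = w i := dif_neg i.2

theorem continuous_ins (i0 : ι) :
    Continuous fun u : ℂ × ({i // i ≠ i0} → ℂ) => ins i0 u.1 u.2 :=
  continuous_pi fun i => by
    unfold ins
    split_ifs <;> fun_prop

end ins

theorem ins_mem_ball {i0 : ι} {ζ ζ' : ℂ} {w w' : {i // i ≠ i0} → ℂ} {r : ℝ} (h : ζ ∈ ball ζ' r)
    (h' : w ∈ ball w' r) : ins i0 ζ w ∈ ball (ins i0 ζ' w') r :=
  (dist_pi_lt_iff (pos_of_mem_ball h)).2 fun i => by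
    unfold ins
    split_ifs with e
    · exact h
    · exact (dist_le_pi_dist w w' ⟨i, e⟩).trans_lt h'

variable {C : Cht ι F} {P : ValuationSubring F} {i0 : ι}

/-- the residue field and a finite chart of it -/
theorem exists_residue (h : C.At P i0) (t : Finset P) :
    ∃ (k : Type) (_ : Field k) (_ : Algebra ℂ k) (S : Cht {i // i ≠ i0} k) (rs : P →+* k)
      (res : C.O →ₐ[ℂ] S.O), Nonempty (Fini (Algebra.ofId ℂ S.O) S.z) ∧ Function.Surjective rs ∧
      (∀ a : P, rs a = 0 ↔ P.valuation a < 1) ∧ (∀ a : C.O, (res a : k) = rs ⟨a, h.le a a.2⟩) ∧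
      (∀ i : {i // i ≠ i0}, res (C.z i) = S.z i) ∧ ∀ a ∈ t, rs a ∈ S.O := by
  classical
  let _ : Algebra ℂ P :=
    ((algebraMap ℂ F).codRestrict P fun c => h.le _ (C.O.algebraMap_mem c)).toAlgebra
  let k := IsLocalRing.ResidueField P
  let rs : P →ₐ[ℂ] k := IsScalarTower.toAlgHom ℂ P k
  let vl : P →ₐ[ℂ] F := { toRingHom := P.subtype, commutes' := fun _ => rfl }
  let inc : C.O →ₐ[ℂ] P :=
    { toRingHom := (C.O.val : C.O →+* F).codRestrict P fun a => h.le a a.2
      commutes' := fun _ => rfl }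
  let r : C.O →ₐ[ℂ] k := rs.comp inc
  have hs : Function.Surjective rs := IsLocalRing.residue_surjective
  have hk : ∀ a : P, rs a = 0 ↔ P.valuation a < 1 := fun a =>
    (IsLocalRing.residue_eq_zero_iff a).trans (P.valuation_lt_one_iff a)
  have hev : ∀ {κ : Type} (Y : κ → P) (p : MvPolynomial κ ℂ),
      MvPolynomial.aeval (fun i => rs (Y i)) p ≠ 0 ↔
        P.valuation (MvPolynomial.aeval (fun i => (Y i : F)) p) = 1 := fun Y p => by
    have e1 := MvPolynomial.comp_aeval_apply Y rs p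
    have e2 : ((MvPolynomial.aeval Y p : P) : F) = _ := MvPolynomial.comp_aeval_apply Y vl p
    rw [← e1, Ne, hk, e2]
    have := P.valuation_le_one (MvPolynomial.aeval Y p)
    rw [e2] at this
    exact ⟨fun a => this.antisymm (not_lt.1 a), fun a b => b.ne a⟩
  have hr : ∀ {A : Subalgebra ℂ k}, (∀ a ∈ C.gens, r a ∈ A) → ∀ a, r a ∈ A := fun {A} H a => by
    have : Algebra.adjoin ℂ (range fun a : C.gens => (a : C.O)) ≤ A.comap r :=
      Algebra.adjoin_le (by rintro _ ⟨b, rfl⟩; exact H b b.2)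
    exact this (C.adjoin_gens ▸ trivial)
  have hfg : (⊤ : IntermediateField ℂ k).FG := by
    refine ⟨C.gens.image r, eq_top_iff.2 fun φ _ => ?_⟩
    have H := hr (A := (IntermediateField.adjoin ℂ (C.gens.image r : Set k)).toSubalgebra)
      fun a ha => IntermediateField.subset_adjoin _ _ (Finset.mem_image_of_mem r ha)
    obtain ⟨ψ, rfl⟩ := hs φ
    obtain ⟨a, b, hb, e⟩ := h.loc ψ ψ.2
    have e1 : rs ψ * r b = r a := by
      rw [← show rs (inc a) = r a from rfl, ← show ψ * inc b = inc a from Subtype.ext e, map_mul]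
      rfl
    rw [eq_div_of_mul_eq (fun h0 => ((hk (inc b)).1 h0).ne hb) e1]
    exact div_mem (H a) (H b)
  have hi : AlgebraicIndependent ℂ fun i : {i // i ≠ i0} => r (C.z i) :=
    algebraicIndependent_iff.2 fun p hp => by
      by_contra h0
      exact (hev (fun i : {i // i ≠ i0} => inc (C.z i)) p).2 (h.ad.ind p h0) hp
  have hy : IsTranscendenceBasis ℂ fun i : {i // i ≠ i0} => r (C.z i) := by
    refine hi.isTranscendenceBasis_iff_isAlgebraic.2 ⟨fun φ => ?_⟩
    by_contra hφ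
    obtain ⟨ψ, rfl⟩ := hs φ
    have h1 := (hi.option_iff_transcendental _).2 hφ
    let Y : Option {i // i ≠ i0} → P := fun o => o.elim ψ fun i => inc (C.z i)
    have h2 : AlgebraicIndependent ℂ fun o => rs (Y o) := by
      convert h1 with o
      cases o <;> rfl
    have h3 := (indep_option (k := ℂ) (y := fun o => (Y o : F)) h.ad.ne h.ad.lt fun p hp =>
      (hev Y p).1 fun e => hp (algebraicIndependent_iff.1 h2 p e)).cardinalMk_le_trdeg
    rw [← C.basis.cardinalMk_eq_trdeg, Cardinal.mk_fintype, Cardinal.mk_fintype, Nat.cast_le,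
      ← Fintype.card_congr (Equiv.optionSubtypeNe i0), Fintype.card_option (α := Option _)] at h3
    omega
  obtain ⟨S, h1, h2, h3⟩ := exists_base hfg hy (C.gens.image r ∪ t.image rs)
  exact ⟨k, inferInstance, inferInstance, S, rs, r.codRestrict S.O (hr fun a ha =>
    h2 _ (Finset.mem_union_left _ (Finset.mem_image_of_mem r ha))), h3, hs, hk, fun _ => rfl,
    fun i => Subtype.ext (h1 i).symm,
    fun a ha => h2 _ (Finset.mem_union_right _ (Finset.mem_image_of_mem rs ha))⟩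

theorem exists_collar (h : C.At P i0) (t : Finset P) :
    ∃ (k : Type) (_ : Field k) (_ : Algebra ℂ k) (Γ : Collar C P i0 k),
      ∀ a ∈ t, Γ.rs a ∈ Γ.S.O := by
  obtain ⟨k, _, _, S, rs, res, ⟨fin⟩, hs, hk, hr, hz, ht⟩ := exists_residue h t
  obtain ⟨cov, c1, c2, c3⟩ := S.cov fin
  obtain ⟨K0, htame⟩ := cov.tame
  obtain ⟨K1, k1, hl⟩ := C.lift_bal
  choose τ t0 t1 t2 using hl
  have h0 := cov.ψ_nonneg
  obtain ⟨L, l0, hL⟩ := (Md.add h0 (Md.sum h0 C.gens fun a _ =>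
    (S.md_cov fin cov c2 c3 (res a)).pow h0 (fun _ => norm_nonneg _) 2)
    (Md.const h0 1)).log_le fun p => by positivity
  replace hL : ∀ p : Pt S.O, C.siz (p.res res) ≤ L * cov.ψ p + L := hL
  set K := |K0| + (2 * (K1 * L) + K1) with hK
  have kl := mul_nonneg k1 l0
  obtain ⟨σ, ta, osc⟩ := htame K (by linarith [le_abs_self K0])
  have hπ : ∀ q : Pt S.O, C.D.π (q.res res) = ins i0 0 (S.D.π q) := fun q => funext fun i => by
    rw [C.π_eq]
    by_cases e : i = i0
    · subst e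
      rw [ins_self]
      change q (res _) = 0
      rw [show res (C.z i) = 0 from Subtype.ext ((hr _).trans ((hk _).2 h.ad.lt)), map_zero]
    · rw [ins_ne i0 0 _ ⟨i, e⟩, S.π_eq, ← hz]; rfl
  have hρ : ∀ p q : Pt S.O, cov.ψ q ≤ cov.ψ p + 1 → Real.exp (-(K * cov.ψ p + K)) ≤
      Real.exp (-(K1 * C.siz (q.res res) + K1)) := fun p q e => Real.exp_le_exp.2 (by
    have a := mul_le_mul_of_nonneg_left (hL q) k1
    have b := mul_le_mul_of_nonneg_left e kl
    have c := mul_nonneg (add_nonneg (abs_nonneg K0) (add_nonneg kl k1)) (h0 p)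
    have := abs_nonneg K0
    rw [hK]; linarith)
  have hm : ∀ p : Pt S.O, ∀ u ∈ ball (0 : ℂ) (Real.exp (-(K * cov.ψ p + K))) ×ˢ
      Hyp.bal S.D K cov.ψ p, ins i0 u.1 u.2 ∈ Hyp.bal C.D K1 C.siz (p.res res) := fun p u hu => by
    rw [Hyp.bal, hπ]
    exact ball_subset_ball (hρ p p (by linarith)) (ins_mem_ball hu.1 hu.2)
  have z0 : ∀ p : Pt S.O, (0 : ℂ) ∈ ball (0 : ℂ) (Real.exp (-(K * cov.ψ p + K))) :=
    fun p => mem_ball_self (Real.exp_pos _)
  have k2 : ∀ p : Pt S.O, EqOn (fun w => (σ p w).res res) (fun w => τ (p.res res) (ins i0 0 w))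
      (Hyp.bal S.D K cov.ψ p) := fun p =>
    C.D.lift_unique (convex_ball _ _).isPreconnected
      ((Pt.continuous_res res).comp_continuousOn (ta.cont p))
      ((t1 _).comp ((continuous_ins i0).comp (Continuous.prodMk_right 0)).continuousOn
        fun w hw => hm p (0, w) ⟨z0 p, hw⟩)
      (fun w hw => by rw [hπ, ta.lift p w hw, (t2 _ _ (hm p (0, w) ⟨z0 p, hw⟩)).1])
      (Hyp.mem_bal p) (by rw [ta.base, ← hπ, t0])
  have k3 : ∀ p : Pt S.O, ∀ u ∈ ball (0 : ℂ) (Real.exp (-(K * cov.ψ p + K))) ×ˢ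
      Hyp.bal S.D K cov.ψ p, τ ((σ p u.2).res res) (ins i0 u.1 (S.D.π (σ p u.2))) =
        τ (p.res res) (ins i0 u.1 u.2) := by
    rintro p ⟨ζ, w⟩ ⟨hζ, hw⟩
    have e := ta.lift p w hw
    have m : ∀ ζ ∈ ball (0 : ℂ) (Real.exp (-(K * cov.ψ p + K))),
        ins i0 ζ w ∈ Hyp.bal C.D K1 C.siz ((σ p w).res res) := fun ζ hζ => by
      rw [Hyp.bal, hπ, e]
      exact ball_subset_ball (hρ p _ (by linarith [(abs_le.1 (osc p w hw)).2]))
        (ins_mem_ball hζ (mem_ball_self (Real.exp_pos _)))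
    have hc := ((continuous_ins i0).comp (Continuous.prodMk_left w)).continuousOn
      (s := ball (0 : ℂ) (Real.exp (-(K * cov.ψ p + K))))
    rw [e]
    refine C.D.lift_unique (convex_ball _ _).isPreconnected ((t1 _).comp hc m)
      ((t1 _).comp hc fun ζ hζ => hm p (ζ, w) ⟨hζ, hw⟩)
      (fun ζ hζ => (t2 _ _ (m ζ hζ)).1.trans (t2 _ _ (hm p (ζ, w) ⟨hζ, hw⟩)).1.symm) (z0 p) ?_ hζ
    refine Eq.trans ?_ (k2 p hw)
    change τ _ (ins i0 0 w) = (σ p w).res res
    conv_lhs => rw [← e, ← hπ]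
    rw [e, t0]
  refine ⟨k, inferInstance, inferInstance, ⟨h, S, fin, cov, c1, c2, c3, rs, hs, hk, res, hr, hz, K,
    σ, ta, osc, fun ζ q => τ (q.res res) (ins i0 ζ (S.D.π q)), fun q => by rw [← hπ, t0],
    fun p => ((t1 _).comp (continuous_ins i0).continuousOn (hm p)).congr (k3 p),
    fun p u hu => by rw [k3 p u hu, (t2 _ _ (hm p u hu)).1], L + 1, by positivity,
    fun p u hu => ?_⟩, ht⟩
  rw [k3 p u hu]
  have := (abs_le.1 (t2 _ _ (hm p u hu)).2).2
  have := hL p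
  have := h0 p
  linarith

end Pool.Agent.Lib.MP_5c318e_ag
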